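import Pool.Agent.Work.MP_dbd475_al.Unique
import Pool.Agent.Work.MP_dbd475_al.Table

/-!
# The value of `a(V)` at the weight `(6, 6, 1)`
-/

set_option autoImplicit false

open MvPowerSeries LaurentPolynomial

namespace Pool.Agent.Work.MP_dbd475_al

/-! ### Evaluation of coefficient lists -/

/-- The Laurent polynomial with given coefficient list. -/
noncomputable def evL : List ℤ → ℤ[T;T⁻¹]
  | [] => 0
  | a :: l => LaurentPolynomial.C a + T 1 * evL l

theorem evL_addL (l l' : List ℤ) : evL (addL l l') = evL l + evL l' := by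
  induction l generalizing l' with
  | nil => simp [addL, evL]
  | cons a l ih =>
    cases l' with
    | nil => simp [addL, evL]
    | cons b l' =>
      simp only [addL, evL, ih, map_add]
      ring

theorem evL_smulL (c : ℤ) (l : List ℤ) : evL (smulL c l) = LaurentPolynomial.C c * evL l := by
  induction l with
  | nil => simp [smulL, evL]
  | cons a l ih =>
    simp only [smulL, evL, ih, map_mul]
    ring

theorem evL_mulL (l l' : List ℤ) : evL (mulL l l') = evL l * evL l' := by
  induction l with
  | nil => simp [mulL, evL]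
  | cons a l ih =>
    by_cases ha : a = 0
    · subst ha
      have : mulL (0 :: l) l' = 0 :: mulL l l' := rfl
      rw [this]
      simp only [evL, ih, map_zero]
      ring
    · have : mulL (a :: l) l' = addL (smulL a l') (0 :: mulL l l') := by
        have h : (a == 0) = false := by simpa using ha
        rw [mulL, h, cond_false]
      rw [this, evL_addL, evL_smulL]
      simp only [evL, ih, map_zero]
      ring

theorem evL_sumL (n : ℕ) (f : ℕ → List ℤ) :
    evL (sumL n f) = ∑ i ∈ Finset.range n, evL (f i) := by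
  induction n with
  | zero => simp [sumL, evL]
  | succ n ih => rw [sumL, evL_addL, ih, Finset.sum_range_succ]

theorem evL_allZero {l : List ℤ} (h : allZero l = true) : evL l = 0 := by
  induction l with
  | nil => rfl
  | cons a l ih =>
    rw [allZero, Bool.and_eq_true, beq_iff_eq] at h
    rw [evL, h.1, ih h.2, map_zero, mul_zero, add_zero]

theorem evL_mono (k : ℕ) (a : ℤ) : evL (mono k a) = LaurentPolynomial.C a * T k := by
  induction k with
  | zero => simp [mono, evL]
  | succ k ih =>
    rw [mono, evL, ih, map_zero, zero_add, Nat.cast_succ, T_add]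
    ring

theorem evL_shiftL (k : ℕ) (l : List ℤ) : evL (shiftL k l) = T k * evL l := by
  induction k with
  | zero => simp [shiftL]
  | succ k ih =>
    rw [shiftL, evL, ih, map_zero, zero_add, Nat.cast_succ, T_add]
    ring

theorem coeff_T_mul (k j : ℤ) (f : ℤ[T;T⁻¹]) : (T k * f).coeff j = f.coeff (j - k) := by
  rw [T, AddMonoidAlgebra.coeff_single_mul_eq_mul_coeff (j - k), one_mul]
  intro a _
  constructor
  · intro h; omega
  · intro h; omega

theorem coeff_evL (l : List ℤ) (k : ℕ) : (evL l).coeff (k : ℤ) = l.getD k 0 := by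
  induction l generalizing k with
  | nil => simp [evL]
  | cons a l ih =>
    rw [evL, AddMonoidAlgebra.coeff_add, Finsupp.add_apply, coeff_T_mul, C_apply]
    cases k with
    | zero =>
      have : ∀ l : List ℤ, ∀ j : ℤ, j < 0 → (evL l).coeff j = 0 := by
        intro l
        induction l with
        | nil => intro j _; rfl
        | cons a l ih =>
          intro j hj
          rw [evL, AddMonoidAlgebra.coeff_add, Finsupp.add_apply, coeff_T_mul, C_apply,
            if_neg (by omega), ih _ (by omega), add_zero]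
      rw [this l _ (by norm_num)]
      simp
    | succ k =>
      have h1 : (((k + 1 : ℕ) : ℤ) - 1) = (k : ℤ) := by push_cast; ring
      rw [h1, ih, if_neg (by push_cast; omega)]
      simp

/-! ### Exponents -/

/-- The exponent `(i, j, l)`. -/
noncomputable def vec (i j l : ℕ) : Fin 3 →₀ ℕ :=
  Finsupp.single 0 i + Finsupp.single 1 j + Finsupp.single 2 l

@[simp] theorem vec_zero' (i j l : ℕ) : vec i j l 0 = i := by simp [vec]
@[simp] theorem vec_one' (i j l : ℕ) : vec i j l 1 = j := by simp [vec]
@[simp] theorem vec_two' (i j l : ℕ) : vec i j l 2 = l := by simp [vec]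

theorem eq_vec (v : Fin 3 →₀ ℕ) : v = vec (v 0) (v 1) (v 2) := by
  ext i; fin_cases i <;> simp

theorem vec_inj {i j l i' j' l' : ℕ} : vec i j l = vec i' j' l' ↔ i = i' ∧ j = j' ∧ l = l' := by
  constructor
  · intro h
    exact ⟨by simpa using DFunLike.congr_fun h 0, by simpa using DFunLike.congr_fun h 1,
      by simpa using DFunLike.congr_fun h 2⟩
  · rintro ⟨rfl, rfl, rfl⟩; rfl

theorem degree_vec (i j l : ℕ) : (vec i j l).degree = i + j + l := by
  simp [vec, map_add]

theorem vec_add (i j l i' j' l' : ℕ) :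
    vec i j l + vec i' j' l' = vec (i + i') (j + j') (l + l') := by
  ext x; fin_cases x <;> simp

theorem smul_vec (m i j l : ℕ) : m • vec i j l = vec (m * i) (m * j) (m * l) := by
  ext x; fin_cases x <;> simp

theorem vec_le {i j l i' j' l' : ℕ} : vec i j l ≤ vec i' j' l' ↔ i ≤ i' ∧ j ≤ j' ∧ l ≤ l' := by
  constructor
  · intro h
    exact ⟨by simpa using h 0, by simpa using h 1, by simpa using h 2⟩
  · rintro ⟨h1, h2, h3⟩ x
    fin_cases x <;> simpa

theorem vec_zero : vec 0 0 0 = 0 := by
  ext x; fin_cases x <;> simp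

theorem sum_antidiagonal_vec {M : Type*} [AddCommMonoid M] (i j l : ℕ)
    (f : (Fin 3 →₀ ℕ) → (Fin 3 →₀ ℕ) → M) :
    ∑ p ∈ Finset.HasAntidiagonal.antidiagonal (vec i j l), f p.1 p.2 =
      ∑ i' ∈ Finset.range (i + 1), ∑ j' ∈ Finset.range (j + 1), ∑ l' ∈ Finset.range (l + 1),
        f (vec i' j' l') (vec (i - i') (j - j') (l - l')) := by
  rw [← Finset.sum_product', ← Finset.sum_product']
  symm
  apply Finset.sum_bij' (fun (x : (ℕ × ℕ) × ℕ) _ =>
      (vec x.1.1 x.1.2 x.2, vec (i - x.1.1) (j - x.1.2) (l - x.2)))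
    (fun (p : (Fin 3 →₀ ℕ) × (Fin 3 →₀ ℕ)) _ => ((p.1 0, p.1 1), p.1 2))
  · rintro ⟨⟨a, b⟩, c⟩ h
    simp only [Finset.mem_product, Finset.mem_range] at h
    rw [Finset.HasAntidiagonal.mem_antidiagonal]
    simp only
    rw [vec_add, vec_inj]
    omega
  · rintro ⟨p, q⟩ h
    rw [Finset.HasAntidiagonal.mem_antidiagonal] at h
    simp only [Finset.mem_product, Finset.mem_range]
    have h0 := DFunLike.congr_fun h 0
    have h1 := DFunLike.congr_fun h 1
    have h2 := DFunLike.congr_fun h 2
    simp at h0 h1 h2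
    omega
  · rintro ⟨⟨a, b⟩, c⟩ _
    simp
  · rintro ⟨p, q⟩ h
    rw [Finset.HasAntidiagonal.mem_antidiagonal] at h
    have h0 := DFunLike.congr_fun h 0
    have h1 := DFunLike.congr_fun h 1
    have h2 := DFunLike.congr_fun h 2
    simp at h0 h1 h2
    simp only [Prod.mk.injEq]
    refine ⟨(eq_vec p).symm, ?_⟩
    rw [eq_vec q, vec_inj]
    omega
  · rintro ⟨⟨a, b⟩, c⟩ _
    rfl

/-! ### Adams operations on the class `a [L(2)] + b [L(0)]` -/

theorem psi_add (m : ℕ) (r s : ℤ[T;T⁻¹]) : psi m (r + s) = psi m r + psi m s := by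
  classical
  unfold psi
  rw [AddMonoidAlgebra.coeff_add, Finsupp.sum_add_index']
  · intro; simp
  · intro j a b; rw [add_smul]

theorem psi_CT (m : ℕ) (a k : ℤ) :
    psi m (LaurentPolynomial.C a * T k) = LaurentPolynomial.C a * T (m * k) := by
  rw [← single_eq_C_mul_T]
  unfold psi
  rw [AddMonoidAlgebra.coeff_single, Finsupp.sum_single_index]
  · rw [LaurentPolynomial.smul_eq_C_mul]
  · simp

theorem psi_x (m : ℕ) (a b : ℤ) :
    psi m (LaurentPolynomial.C a * charL2 + LaurentPolynomial.C b) =
      LaurentPolynomial.C a * T m + LaurentPolynomial.C (a + b) +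
        LaurentPolynomial.C a * T (-m) := by
  rw [x_expand, psi_add, psi_add, psi_add, psi_CT, psi_CT, psi_CT, psi_CT, map_add]
  simp only [mul_zero, T_zero, mul_one, mul_neg]
  ring

/-! ### The table series -/

/-- The series with the tabulated values of `a`. -/
noncomputable def aT : MvPowerSeries (Fin 3) ℤ := fun w => tA (w 0) (w 1) (w 2)

/-- The series with the tabulated values of `b`. -/
noncomputable def bT : MvPowerSeries (Fin 3) ℤ := fun w => tB (w 0) (w 1) (w 2)

theorem coeff_xT (i j l : ℕ) : coeff (vec i j l) (xab aT bT) =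
    LaurentPolynomial.C (tA i j l) * charL2 + LaurentPolynomial.C (tB i j l) := by
  rw [coeff_xab]
  have h1 : coeff (vec i j l) aT = tA i j l := by
    change tA (vec i j l 0) (vec i j l 1) (vec i j l 2) = _
    simp
  have h2 : coeff (vec i j l) bT = tB i j l := by
    change tB (vec i j l 0) (vec i j l 1) (vec i j l 2) = _
    simp
  rw [h1, h2]

theorem checkAt {i j l : ℕ} (hi : i < 7) (hj : j < 7) (hl : l < 2) :
    checkF i j l = true ∧ checkP i j l = true ∧ checkM i j l = true := by
  have h := checkAll_eq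
  rw [checkAll, List.all_eq_true] at h
  have h := h i (List.mem_range.2 hi)
  rw [List.all_eq_true] at h
  have h := h j (List.mem_range.2 hj)
  rw [List.all_eq_true] at h
  have h := h l (List.mem_range.2 hl)
  rw [Bool.and_eq_true, Bool.and_eq_true] at h
  exact h

theorem C_natCast (d : ℕ) :
    (LaurentPolynomial.C (d : ℤ) : ℤ[T;T⁻¹]) = (d : ℤ[T;T⁻¹]) := by simp

/-- The logarithmic derivative for the table series. -/
theorem Pser_table {i j l : ℕ} (hi : i < 7) (hj : j < 7) (hl : l < 2) :
    T 7 * Pser (xab aT bT) (vec i j l) = evL (tP i j l) := by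
  -- the inner sum
  have h1 : ∀ m ∈ Finset.Icc 1 (i + j + l), (∑ w ∈ Finset.Iic (vec i j l),
      if m • w = vec i j l then (w.degree : ℤ[T;T⁻¹]) * psi m (coeff w (xab aT bT)) else 0) =
      if m ∣ i ∧ m ∣ j ∧ m ∣ l then ((i / m + j / m + l / m : ℕ) : ℤ[T;T⁻¹]) *
        (LaurentPolynomial.C (tA (i / m) (j / m) (l / m)) * T m +
        LaurentPolynomial.C (tA (i / m) (j / m) (l / m) + tB (i / m) (j / m) (l / m)) +
        LaurentPolynomial.C (tA (i / m) (j / m) (l / m)) * T (-m)) else 0 := by
    intro m hm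
    rw [Finset.mem_Icc] at hm
    by_cases hd : m ∣ i ∧ m ∣ j ∧ m ∣ l
    · rw [if_pos hd]
      have hmul : m • vec (i / m) (j / m) (l / m) = vec i j l := by
        rw [smul_vec, Nat.mul_div_cancel' hd.1, Nat.mul_div_cancel' hd.2.1,
          Nat.mul_div_cancel' hd.2.2]
      rw [Finset.sum_eq_single (vec (i / m) (j / m) (l / m))]
      · rw [if_pos hmul, degree_vec, coeff_xT, psi_x]
      · intro w _ hw
        rw [if_neg]
        intro h
        apply hw
        rw [eq_vec w, smul_vec, vec_inj] at h
        rw [eq_vec w, vec_inj]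
        obtain ⟨e1, e2, e3⟩ := h
        have hm0 : 0 < m := hm.1
        refine ⟨?_, ?_, ?_⟩
        · rw [← e1, Nat.mul_div_cancel_left _ hm0]
        · rw [← e2, Nat.mul_div_cancel_left _ hm0]
        · rw [← e3, Nat.mul_div_cancel_left _ hm0]
      · intro hnot
        exfalso
        apply hnot
        rw [Finset.mem_Iic, vec_le]
        exact ⟨Nat.div_le_self _ _, Nat.div_le_self _ _, Nat.div_le_self _ _⟩
    · rw [if_neg hd]
      apply Finset.sum_eq_zero
      intro w _
      rw [if_neg]
      intro h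
      apply hd
      rw [eq_vec w, smul_vec, vec_inj] at h
      obtain ⟨e1, e2, e3⟩ := h
      exact ⟨⟨_, e1.symm⟩, ⟨_, e2.symm⟩, ⟨_, e3.symm⟩⟩
  rw [Pser_apply, degree_vec, Finset.sum_congr rfl h1]
  -- the check
  have hc := (checkAt hi hj hl).2.1
  rw [checkP] at hc
  have hc := evL_allZero hc
  rw [evL_addL, evL_smulL, mkP, evL_sumL] at hc
  have h2 : ∑ m' ∈ Finset.range (i + j + l), evL (bif ((m' + 1) ∣ i) && ((m' + 1) ∣ j) &&
      ((m' + 1) ∣ l) then
      smulL ((i / (m' + 1) + j / (m' + 1) + l / (m' + 1) : ℕ) : ℤ)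
      (addL (mono (7 - (m' + 1)) (tA (i / (m' + 1)) (j / (m' + 1)) (l / (m' + 1))))
      (addL (mono 7 (tA (i / (m' + 1)) (j / (m' + 1)) (l / (m' + 1)) +
        tB (i / (m' + 1)) (j / (m' + 1)) (l / (m' + 1))))
      (mono (7 + (m' + 1)) (tA (i / (m' + 1)) (j / (m' + 1)) (l / (m' + 1)))))) else []) =
      T 7 * ∑ m ∈ Finset.Icc 1 (i + j + l), (if m ∣ i ∧ m ∣ j ∧ m ∣ l then
        ((i / m + j / m + l / m : ℕ) : ℤ[T;T⁻¹]) *
        (LaurentPolynomial.C (tA (i / m) (j / m) (l / m)) * T m +
        LaurentPolynomial.C (tA (i / m) (j / m) (l / m) + tB (i / m) (j / m) (l / m)) +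
        LaurentPolynomial.C (tA (i / m) (j / m) (l / m)) * T (-m)) else 0) := by
    rw [Finset.range_eq_Ico, Finset.sum_Ico_add' (fun m => evL (bif (m ∣ i) && (m ∣ j) &&
      (m ∣ l) then
      smulL ((i / m + j / m + l / m : ℕ) : ℤ)
      (addL (mono (7 - m) (tA (i / m) (j / m) (l / m)))
      (addL (mono 7 (tA (i / m) (j / m) (l / m) +
        tB (i / m) (j / m) (l / m)))
      (mono (7 + m) (tA (i / m) (j / m) (l / m))))) else [])) 0 (i + j + l) 1, zero_add]
    have : Finset.Ico 1 (i + j + l + 1) = Finset.Icc 1 (i + j + l) := rfl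
    rw [this, Finset.mul_sum]
    apply Finset.sum_congr rfl
    intro m hm
    rw [Finset.mem_Icc] at hm
    by_cases hd : m ∣ i ∧ m ∣ j ∧ m ∣ l
    · rw [if_pos hd]
      have hb : ((decide (m ∣ i) && decide (m ∣ j) && decide (m ∣ l)) : Bool) = true := by
        simp [hd]
      rw [hb, cond_true, evL_smulL, evL_addL, evL_addL, evL_mono, evL_mono, evL_mono]
      have hm7 : m ≤ 7 := by
        rcases Nat.eq_zero_or_pos i with h | h
        · rcases Nat.eq_zero_or_pos j with h' | h'
          · have := Nat.le_of_dvd (by omega) hd.2.2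
            omega
          · have := Nat.le_of_dvd h' hd.2.1
            omega
        · have := Nat.le_of_dvd h hd.1
          omega
      have e1 : ((7 - m : ℕ) : ℤ) = 7 + (-(m : ℤ)) := by omega
      have e2 : ((7 + m : ℕ) : ℤ) = 7 + (m : ℤ) := by push_cast; ring
      rw [e1, e2, C_natCast, T_add, T_add]
      generalize i / m + j / m + l / m = d
      rw [Nat.cast_ofNat]
      ring
    · rw [if_neg hd]
      have hb : ((decide (m ∣ i) && decide (m ∣ j) && decide (m ∣ l)) : Bool) = false := by
        rw [Bool.and_assoc]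
        simpa [Bool.and_eq_false_iff] using hd
      rw [hb, cond_false, mul_zero]
      rfl
  rw [h2] at hc
  have e4 : (LaurentPolynomial.C (-1 : ℤ) : ℤ[T;T⁻¹]) = -1 := by simp
  rw [e4] at hc
  linear_combination -hc

theorem T_mul_cancel {k : ℤ} {f g : ℤ[T;T⁻¹]} (h : T k * f = T k * g) : f = g := by
  have h2 := congrArg (fun x => T (-k) * x) h
  simp only [← mul_assoc, ← T_add, neg_add_cancel, T_zero, one_mul] at h2
  exact h2

/-- The values of `Φ` for the table series. -/
theorem lam_table (d : ℕ) : ∀ i j l : ℕ, i + j + l = d → i < 7 → j < 7 → l < 2 →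
    T 7 * coeff (vec i j l) (lam (xab aT bT)) = evL (tF i j l) := by
  induction d using Nat.strong_induction_on with
  | _ d IH =>
    intro i j l hd hi hj hl
    by_cases h0 : d = 0
    · have : i = 0 ∧ j = 0 ∧ l = 0 := by omega
      obtain ⟨rfl, rfl, rfl⟩ := this
      rw [vec_zero, coeff_zero_lam]
      have ht : tF 0 0 0 = mono 7 1 ++ [0, 0, 0, 0, 0, 0, 0] := by decide +kernel
      rw [ht]
      simp only [mono, List.cons_append, List.nil_append, evL, map_zero, map_one, mul_zero,
        add_zero, zero_add, mul_one, ← T_add]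
      norm_num
    · have hdeg : (d : ℤ[T;T⁻¹]) ≠ 0 := natCast_ne_zero (Nat.pos_of_ne_zero h0)
      have hrec := lam_rec (xab aT bT) (vec i j l)
      rw [degree_vec, hd, sum_antidiagonal_vec i j l
        (fun p q => Pser (xab aT bT) p * coeff q (lam (xab aT bT)))] at hrec
      -- the check
      have hc := evL_allZero (checkAt hi hj hl).1
      rw [evL_addL, evL_smulL, evL_shiftL, conv, evL_sumL, C_natCast, hd] at hc
      have h1 : ∑ i' ∈ Finset.range (i + 1), evL (sumL (j + 1) fun j' => sumL (l + 1) fun l' =>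
          mulL (tP i' j' l') (tF (i - i') (j - j') (l - l'))) =
          T 14 * ∑ i' ∈ Finset.range (i + 1), ∑ j' ∈ Finset.range (j + 1),
            ∑ l' ∈ Finset.range (l + 1), Pser (xab aT bT) (vec i' j' l') *
              coeff (vec (i - i') (j - j') (l - l')) (lam (xab aT bT)) := by
        rw [Finset.mul_sum]
        apply Finset.sum_congr rfl
        intro i' hi'
        rw [evL_sumL, Finset.mul_sum]
        apply Finset.sum_congr rfl
        intro j' hj'
        rw [evL_sumL, Finset.mul_sum]
        apply Finset.sum_congr rfl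
        intro l' hl'
        rw [Finset.mem_range] at hi' hj' hl'
        rw [evL_mulL, ← Pser_table (by omega) (by omega) (by omega)]
        by_cases hz : i' + j' + l' = 0
        · have : i' = 0 ∧ j' = 0 ∧ l' = 0 := by omega
          obtain ⟨rfl, rfl, rfl⟩ := this
          rw [vec_zero, Pser_zero]
          ring
        · rw [← IH ((i - i') + (j - j') + (l - l')) (by omega) _ _ _ rfl (by omega) (by omega)
            (by omega)]
          have : (T 14 : ℤ[T;T⁻¹]) = T 7 * T 7 := by rw [← T_add]; norm_num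
          rw [this]
          ring
      rw [h1] at hc
      have h2 : (T 14 : ℤ[T;T⁻¹]) = T 7 * T 7 := by rw [← T_add]; norm_num
      rw [h2, Nat.cast_ofNat] at hc
      apply T_mul_cancel (k := 7)
      apply mul_left_cancel₀ hdeg
      linear_combination (T 7 * T 7) * hrec - hc

/-- Local version of uniqueness. -/
theorem km_unique_local {n : ℕ} {a b a' b' : MvPowerSeries (Fin n) ℤ} (h : IsKMPair a b)
    (V : Fin n →₀ ℕ) (ha' : constantCoeff a' = 0) (hb' : constantCoeff b' = 0)
    (h0 : ∀ v ≤ V, mu 0 (coeff v (Phi a' b')) = coeff v (1 : MvPowerSeries (Fin n) ℤ))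
    (h1 : ∀ v ≤ V, mu 1 (coeff v (Phi a' b')) =
      coeff v (-∑ i : Fin n, X i : MvPowerSeries (Fin n) ℤ)) :
    ∀ v ≤ V, coeff v a = coeff v a' ∧ coeff v b = coeff v b' := by
  have key : ∀ d : ℕ, ∀ v : Fin n →₀ ℕ, v ≤ V → v.degree = d →
      coeff v a = coeff v a' ∧ coeff v b = coeff v b' := by
    intro d
    induction d using Nat.strong_induction_on with
    | _ d IH =>
      intro v hvV hd
      by_cases hv : v = 0
      · subst hv
        rw [coeff_zero_eq_constantCoeff_apply, coeff_zero_eq_constantCoeff_apply,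
          coeff_zero_eq_constantCoeff_apply, coeff_zero_eq_constantCoeff_apply,
          h.constantCoeff_a, ha', h.constantCoeff_b, hb']
        exact ⟨rfl, rfl⟩
      · have h2 := lam_diff (x := xab a b) (x' := xab a' b') hv (by
          intro w hw
          have hwd : w.degree < d := by
            obtain ⟨u, rfl⟩ := exists_add_of_le hw.le
            have hu : u ≠ 0 := by
              rintro rfl
              simp at hw
            have := degree_pos hu
            rw [← hd, map_add]
            omega
          obtain ⟨e1, e2⟩ := IH _ hwd w (hw.le.trans hvV) rfl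
          rw [coeff_xab, coeff_xab, e1, e2])
        rw [← Phi_eq, ← Phi_eq, coeff_xab, coeff_xab] at h2
        have m0 := congrArg (coeff v) h.mult_zero
        have m1 := congrArg (coeff v) h.mult_one
        rw [coeff_mult] at m0 m1
        have m0' := h0 v hvV
        have m1' := h1 v hvV
        have h3 : (coeff v (Phi a b) - coeff v (Phi a' b')) =
            (LaurentPolynomial.C (coeff v a') * charL2 + LaurentPolynomial.C (coeff v b')) -
            (LaurentPolynomial.C (coeff v a) * charL2 + LaurentPolynomial.C (coeff v b)) := by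
          rw [h2]; ring
        have e0 := congrArg (mu 0) h3
        have e1 := congrArg (mu 1) h3
        rw [mu_sub, mu_sub, m0, m0', mu_zero_x, mu_zero_x, sub_self] at e0
        rw [mu_sub, mu_sub, m1, m1', mu_one_x, mu_one_x, sub_self] at e1
        constructor <;> linarith
  intro v hv
  exact key _ v hv rfl

/-- The value of `a(V)` at the weight `(6, 6, 1)`. -/
theorem value_661 {a b : MvPowerSeries (Fin 3) ℤ} (h : IsKMPair a b) :
    coeff (vec 6 6 1) a = 6015 := by
  have hF : ∀ v ≤ vec 6 6 1, ∀ k : ℕ,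
      (coeff v (Phi aT bT)).coeff (k : ℤ) = (tF (v 0) (v 1) (v 2)).getD (k + 7) 0 := by
    intro v hv k
    have hv0 := hv 0
    have hv1 := hv 1
    have hv2 := hv 2
    simp at hv0 hv1 hv2
    have h1 := lam_table _ (v 0) (v 1) (v 2) rfl (by omega) (by omega) (by omega)
    rw [← eq_vec] at h1
    have h2 := coeff_evL (tF (v 0) (v 1) (v 2)) (k + 7)
    rw [← h1, coeff_T_mul] at h2
    rw [← h2, Phi_eq]
    congr 1
    push_cast
    ring
  have hM : ∀ v ≤ vec 6 6 1, checkM (v 0) (v 1) (v 2) = true := by
    intro v hv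
    have hv0 := hv 0
    have hv1 := hv 1
    have hv2 := hv 2
    simp at hv0 hv1 hv2
    exact (checkAt (by omega) (by omega) (by omega)).2.2
  have hz : ∀ v : Fin 3 →₀ ℕ, v = 0 ↔ v 0 + v 1 + v 2 = 0 := by
    intro v
    constructor
    · rintro rfl; simp
    · intro h
      rw [eq_vec v, ← vec_zero, vec_inj]
      omega
  have hres := km_unique_local h (vec 6 6 1) (a' := aT) (b' := bT)
    (by
      rw [← coeff_zero_eq_constantCoeff_apply]
      change tA 0 0 0 = 0
      decide +kernel)
    (by
      rw [← coeff_zero_eq_constantCoeff_apply]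
      change tB 0 0 0 = 0
      decide +kernel)
    (by
      intro v hv
      have h1 := hM v hv
      rw [checkM, Bool.and_eq_true, beq_iff_eq, beq_iff_eq] at h1
      have e0 := hF v hv 0
      have e1 := hF v hv 1
      rw [mu]
      simp only [Nat.cast_zero, Nat.cast_one, zero_add] at e0 e1 ⊢
      rw [e0, e1, h1.1, coeff_one]
      by_cases hv' : v 0 + v 1 + v 2 = 0
      · rw [if_pos ((hz v).2 hv'), hv']
        rfl
      · rw [if_neg (fun h => hv' ((hz v).1 h))]
        have : (v 0 + v 1 + v 2 == 0) = false := by simpa using hv'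
        rw [this]
        rfl)
    (by
      intro v hv
      have h1 := hM v hv
      rw [checkM, Bool.and_eq_true, beq_iff_eq, beq_iff_eq] at h1
      have e0 := hF v hv 1
      have e1 := hF v hv 2
      rw [mu]
      simp only [Nat.cast_one, Nat.cast_ofNat] at e0 e1 ⊢
      have e1' : (1 : ℤ) + 1 = 2 := by norm_num
      rw [e1', e0, e1, h1.2, map_neg, map_sum, Fin.sum_univ_three, coeff_X, coeff_X, coeff_X]
      by_cases hv' : v 0 + v 1 + v 2 = 1
      · have : (v 0 + v 1 + v 2 == 1) = true := by simpa using hv'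
        rw [this, cond_true]
        have h3 : (v 0 = 1 ∧ v 1 = 0 ∧ v 2 = 0) ∨ (v 0 = 0 ∧ v 1 = 1 ∧ v 2 = 0) ∨
          (v 0 = 0 ∧ v 1 = 0 ∧ v 2 = 1) := by omega
        have hs0 : (Finsupp.single 0 1 : Fin 3 →₀ ℕ) = vec 1 0 0 := by simp [vec]
        have hs1 : (Finsupp.single 1 1 : Fin 3 →₀ ℕ) = vec 0 1 0 := by simp [vec]
        have hs2 : (Finsupp.single 2 1 : Fin 3 →₀ ℕ) = vec 0 0 1 := by simp [vec]
        rw [hs0, hs1, hs2, eq_vec v]
        rcases h3 with ⟨h3, h4, h5⟩ | ⟨h3, h4, h5⟩ | ⟨h3, h4, h5⟩ <;>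
          rw [h3, h4, h5] <;> simp [vec_inj]
      · have : (v 0 + v 1 + v 2 == 1) = false := by simpa using hv'
        rw [this, cond_false]
        have hne : ∀ i : Fin 3, v ≠ Finsupp.single i 1 := by
          rintro i rfl
          apply hv'
          fin_cases i <;> simp
        rw [if_neg (hne 0), if_neg (hne 1), if_neg (hne 2)]
        rfl)
    (vec 6 6 1) le_rfl
  rw [hres.1]
  change tA (vec 6 6 1 0) (vec 6 6 1 1) (vec 6 6 1 2) = _
  rw [vec_zero', vec_one', vec_two']
  decide +kernel

end Pool.Agent.Work.MP_dbd475_al
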