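import Pool.Agent.Work.MP_dbd475_al.Defs

/-!
# Cohn's theorem on three generators and the resulting lower bound
-/

set_option autoImplicit false

namespace Pool.Agent.Work.MP_dbd475_al

section Special

variable (k : Type*) [Field k] {X : Type*}

/-- The word `l` in the free associative algebra. -/
noncomputable def wd (l : List X) : MonoidAlgebra k (FreeMonoid X) :=
  MonoidAlgebra.single (FreeMonoid.ofList l) 1

theorem wd_mul (l l' : List X) : wd k l * wd k l' = wd k (l ++ l') := by
  simp [wd, MonoidAlgebra.single_mul_single]

/-- Evaluation of nonassociative monomials in the special Jordan algebra. -/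
noncomputable def ev : FreeMagma X → MonoidAlgebra k (FreeMonoid X)
  | .of x => wd k [x]
  | .mul a b => (2 : k)⁻¹ • (ev a * ev b + ev b * ev a)

theorem ev_of (x : X) : ev k (FreeMagma.of x) = wd k [x] := rfl

theorem ev_mul (a b : FreeMagma X) :
    ev k (a * b) = (2 : k)⁻¹ • (ev k a * ev k b + ev k b * ev k a) := rfl

/-- The linear extension of `ev`. -/
noncomputable def phi : FreeNonUnitalNonAssocAlgebra k X →ₗ[k] MonoidAlgebra k (FreeMonoid X) :=
  (Finsupp.linearCombination k (ev k)) ∘ₗ
    (MonoidAlgebra.coeffLinearEquiv k (S := k) (M := FreeMagma X)).toLinearMap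

theorem phi_single (m : FreeMagma X) (r : k) :
    phi k (MonoidAlgebra.single m r) = r • ev k m := by
  simp [phi, MonoidAlgebra.coeffLinearEquiv]

theorem phi_mul (a b : FreeNonUnitalNonAssocAlgebra k X) :
    phi k (a * b) = (2 : k)⁻¹ • (phi k a * phi k b + phi k b * phi k a) := by
  induction a using MonoidAlgebra.induction_linear with
  | zero => simp
  | add x y hx hy =>
    rw [add_mul, map_add, hx, hy, map_add, ← smul_add]
    congr 1
    noncomm_ring
  | single m r =>
    induction b using MonoidAlgebra.induction_linear with
    | zero => simp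
    | add x y hx hy =>
      rw [mul_add, map_add, hx, hy, map_add, ← smul_add]
      congr 1
      noncomm_ring
    | single m' r' =>
      rw [MonoidAlgebra.single_mul_single, phi_single, phi_single, phi_single, ev_mul]
      simp only [smul_mul_smul_comm, smul_smul, mul_comm r' r, ← smul_add]
      congr 1
      ring

theorem jordanIdeal_le_ker : jordanIdeal k X ≤ LinearMap.ker (phi k) := by
  refine sInf_le ⟨?_, ?_, ?_⟩
  · intro a b
    rw [LinearMap.mem_ker, map_sub, phi_mul, phi_mul, add_comm, sub_self]
  · intro a b
    rw [LinearMap.mem_ker, map_sub]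
    simp only [phi_mul]
    generalize phi k a = A
    generalize phi k b = B
    simp only [smul_mul_assoc, mul_smul_comm, smul_add, mul_add, add_mul, smul_smul, mul_assoc]
    abel
  · intro a x hx
    rw [LinearMap.mem_ker] at hx
    constructor <;> rw [LinearMap.mem_ker, phi_mul, hx] <;> simp

/-- The induced map from the free Jordan algebra to the free associative algebra. -/
noncomputable def phibar : FreeJordan k X →ₗ[k] MonoidAlgebra k (FreeMonoid X) :=
  (jordanIdeal k X).liftQ (phi k) (jordanIdeal_le_ker k)

/-- The weight `w` part of the free special Jordan algebra. -/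
noncomputable def SJ (w : X →₀ ℕ) : Submodule k (MonoidAlgebra k (FreeMonoid X)) :=
  Submodule.span k {y | ∃ m : FreeMagma X, multideg m = w ∧ y = ev k m}

theorem SJ_eq_map (w : X →₀ ℕ) : SJ k w = (weightSpace k w).map (phibar k) := by
  rw [SJ, weightSpace, Submodule.map_span]
  congr 1
  ext y
  constructor
  · rintro ⟨m, hm, rfl⟩
    exact ⟨_, ⟨m, hm, rfl⟩, by rw [phibar, Submodule.liftQ_apply, phi_single, one_smul]⟩
  · rintro ⟨_, ⟨m, hm, rfl⟩, rfl⟩
    exact ⟨m, hm, by rw [phibar, Submodule.liftQ_apply, phi_single, one_smul]⟩

theorem ev_mem_SJ (m : FreeMagma X) : ev k m ∈ SJ k (multideg m) :=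
  Submodule.subset_span ⟨m, rfl, rfl⟩

theorem multideg_mul (a b : FreeMagma X) : multideg (a * b) = multideg a + multideg b := rfl

variable {k}

theorem SJ_mul [CharZero k] {w w' : X →₀ ℕ} {x y : MonoidAlgebra k (FreeMonoid X)}
    (hx : x ∈ SJ k w) (hy : y ∈ SJ k w') : x * y + y * x ∈ SJ k (w + w') := by
  induction hx using Submodule.span_induction with
  | mem x h =>
    obtain ⟨m, rfl, rfl⟩ := h
    induction hy using Submodule.span_induction with
    | mem y h =>
      obtain ⟨m', rfl, rfl⟩ := h
      have h1 := (SJ k (multideg m + multideg m')).smul_mem (2 : k) (ev_mem_SJ k (m * m'))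
      rwa [ev_mul, smul_smul, mul_inv_cancel₀ (two_ne_zero), one_smul] at h1
    | zero => simp
    | add y z _ _ hy hz =>
      have : ev k m * (y + z) + (y + z) * ev k m
        = (ev k m * y + y * ev k m) + (ev k m * z + z * ev k m) := by noncomm_ring
      rw [this]; exact Submodule.add_mem _ hy hz
    | smul c y _ hy =>
      rw [mul_smul_comm, smul_mul_assoc, ← smul_add]
      exact Submodule.smul_mem _ _ hy
  | zero => simp
  | add x z _ _ hx hz =>
    have : (x + z) * y + y * (x + z) = (x * y + y * x) + (z * y + y * z) := by noncomm_ring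
    rw [this]; exact Submodule.add_mem _ hx hz
  | smul c x _ hx =>
    rw [mul_smul_comm, smul_mul_assoc, ← smul_add]
    exact Submodule.smul_mem _ _ hx

/-- The weight of a word. -/
noncomputable def wt (l : List X) : X →₀ ℕ := (l.map fun x => Finsupp.single x 1).sum

theorem wt_cons (x : X) (l : List X) : wt (x :: l) = Finsupp.single x 1 + wt l := by
  simp [wt]

theorem wt_nil : wt ([] : List X) = 0 := rfl

theorem wt_append (l l' : List X) : wt (l ++ l') = wt l + wt l' := by simp [wt]

theorem wt_perm {l l' : List X} (h : l.Perm l') : wt l = wt l' := (h.map _).sum_eq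

variable (k)

/-- The symmetrized word. -/
noncomputable def br (l : List X) : MonoidAlgebra k (FreeMonoid X) := wd k l + wd k l.reverse

/-- `l` is good if its symmetrization is a Jordan polynomial. -/
def Good (l : List X) : Prop := br k l ∈ SJ k (wt l)

variable {k}

theorem wd_single_mem (x : X) : wd k [x] ∈ SJ k (wt [x]) := by
  have := ev_mem_SJ k (FreeMagma.of x)
  have h2 : multideg (FreeMagma.of x) = wt [x] := by simp [multideg, wt]
  rwa [ev_of, h2] at this

theorem rot_mem [CharZero k] (x : X) (v : List X) (hv : Good k v) :
    br k (x :: v) + br k (v ++ [x]) ∈ SJ k (wt (x :: v)) := by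
  have h := SJ_mul (wd_single_mem (k := k) x) hv
  have h1 : wt [x] + wt v = wt (x :: v) := by rw [wt_cons, wt_cons, wt_nil, add_zero]
  rw [h1] at h
  convert h using 1
  simp only [br, mul_add, add_mul, wd_mul, List.reverse_cons, List.reverse_append,
    List.reverse_nil, List.nil_append, List.cons_append]
  abel

theorem swap_mem [CharZero k] (x y : X) (v : List X) (hv : Good k v) :
    br k (x :: y :: v) + br k (y :: x :: v) + br k (v ++ [x, y]) + br k (v ++ [y, x])
      ∈ SJ k (wt (x :: y :: v)) := by
  have h0 := SJ_mul (wd_single_mem (k := k) x) (wd_single_mem (k := k) y)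
  have h := SJ_mul h0 hv
  have h1 : wt [x] + wt [y] + wt v = wt (x :: y :: v) := by
    simp only [wt_cons, wt_nil, add_zero, add_assoc]
  rw [h1] at h
  convert h using 1
  simp only [br, mul_add, add_mul, wd_mul, List.reverse_cons, List.reverse_append,
    List.reverse_nil, List.nil_append, List.cons_append, List.append_assoc]
  abel

theorem two_smul_mem [CharZero k] {S : Submodule k (MonoidAlgebra k (FreeMonoid X))}
    {x : MonoidAlgebra k (FreeMonoid X)} (h : x + x ∈ S) : x ∈ S := by
  have := S.smul_mem (2 : k)⁻¹ h
  rwa [← two_smul k x, smul_smul, inv_mul_cancel₀ two_ne_zero, one_smul] at this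

/-- Rotations act by a sign, modulo Jordan polynomials. -/
theorem rotate_mem [CharZero k] (n : ℕ) (IH : ∀ v : List X, v.length = n → Good k v) (j : ℕ) :
    ∀ l : List X, l.length = n + 1 → j ≤ n + 1 →
      br k l - (-1 : k) ^ j • br k (l.rotate j) ∈ SJ k (wt l) := by
  induction j with
  | zero => intro l _ _; simp
  | succ j ih =>
    intro l hl hj
    have h1 := ih l hl (by omega)
    have hlen : (l.rotate j).length = n + 1 := by rw [List.length_rotate, hl]
    rw [← List.rotate_rotate]
    obtain ⟨x, v, hxv⟩ : ∃ x v, l.rotate j = x :: v := by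
      cases h : l.rotate j with
      | nil => rw [h] at hlen; simp at hlen
      | cons x v => exact ⟨x, v, rfl⟩
    have hv : v.length = n := by rw [hxv] at hlen; simpa using hlen
    have h2 := rot_mem x v (IH v hv)
    have hwt : wt (x :: v) = wt l := by rw [← hxv]; exact wt_perm (List.rotate_perm l j)
    rw [hwt] at h2
    rw [hxv] at h1 ⊢
    have h3 : (x :: v).rotate 1 = v ++ [x] := by simp
    rw [h3]
    have h4 := (SJ k (wt l)).add_mem h1 ((SJ k (wt l)).smul_mem ((-1 : k) ^ j) h2)
    convert h4 using 1
    rw [smul_add, pow_succ]
    simp only [mul_neg, mul_one, neg_smul]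
    abel

theorem good_of_odd [CharZero k] (n : ℕ) (hn : Even n)
    (IH : ∀ v : List X, v.length = n → Good k v) (l : List X) (hl : l.length = n + 1) :
    Good k l := by
  have h := rotate_mem n IH (n + 1) l hl le_rfl
  have h2 : l.rotate (n + 1) = l := by rw [← hl, List.rotate_length]
  rw [h2, pow_succ, hn.neg_one_pow] at h
  apply two_smul_mem
  simpa using h

theorem good_rotate [CharZero k] (n : ℕ) (IH : ∀ v : List X, v.length = n → Good k v) (j : ℕ)
    (l : List X) (hl : l.length = n + 1) (hj : j ≤ n + 1) (h : Good k (l.rotate j)) :
    Good k l := by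
  have h1 := rotate_mem n IH j l hl hj
  have h2 : br k (l.rotate j) ∈ SJ k (wt l) := by
    have := wt_perm (List.rotate_perm l j)
    unfold Good at h
    rwa [this] at h
  have := (SJ k (wt l)).add_mem h1 ((SJ k (wt l)).smul_mem ((-1 : k) ^ j) h2)
  unfold Good
  simpa using this

theorem swap_mem' [CharZero k] (n : ℕ) (IH : ∀ v : List X, v.length = n + 1 → Good k v)
    (IH' : ∀ v : List X, v.length = n → Good k v)
    (x y : X) (v : List X) (hv : v.length = n) :
    br k (x :: y :: v) + br k (y :: x :: v) ∈ SJ k (wt (x :: y :: v)) := by
  have h := swap_mem x y v (IH' v hv)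
  have h1 := rotate_mem (n + 1) IH 2 (x :: y :: v) (by simp [hv]) (by omega)
  have h2 := rotate_mem (n + 1) IH 2 (y :: x :: v) (by simp [hv]) (by omega)
  have hw : wt (y :: x :: v) = wt (x :: y :: v) := wt_perm (List.Perm.swap _ _ _)
  rw [hw] at h2
  have e1 : (x :: y :: v).rotate 2 = v ++ [x, y] := by simp
  have e2 : (y :: x :: v).rotate 2 = v ++ [y, x] := by simp
  rw [e1] at h1
  rw [e2] at h2
  apply two_smul_mem
  have h3 := (SJ k (wt (x :: y :: v))).add_mem h
    ((SJ k (wt (x :: y :: v))).add_mem h1 h2)
  convert h3 using 1
  simp only [even_two, Even.neg_pow, one_pow, one_smul]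
  abel

theorem good_perm [CharZero k] (n : ℕ) (IH : ∀ v : List X, v.length = n + 1 → Good k v)
    (IH' : ∀ v : List X, v.length = n → Good k v) {l l' : List X} (h : l.Perm l') :
    ∀ a : List X, (a ++ l).length = n + 2 → (Good k (a ++ l) ↔ Good k (a ++ l')) := by
  -- the swap of the first two letters
  have key : ∀ (x y : X) (v : List X), v.length = n → Good k (x :: y :: v) →
      Good k (y :: x :: v) := by
    intro x y v hv hg
    have h1 := swap_mem' n IH IH' x y v hv
    have hw : wt (y :: x :: v) = wt (x :: y :: v) := wt_perm (List.Perm.swap _ _ _)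
    unfold Good at hg ⊢
    rw [hw]
    have := (SJ k (wt (x :: y :: v))).sub_mem h1 hg
    simpa using this
  -- rotations
  have rot : ∀ a b : List X, (a ++ b).length = n + 2 → Good k (b ++ a) → Good k (a ++ b) := by
    intro a b hab hg
    apply good_rotate (n + 1) IH a.length (a ++ b) hab (by simp at hab; omega)
    rwa [List.rotate_append_length_eq]
  induction h with
  | nil => intro a _; rfl
  | cons x h ih =>
    intro a ha
    have := ih (a ++ [x]) (by simpa using ha)
    simpa using this
  | swap x y l =>
    intro a ha
    have step : ∀ x y : X, (a ++ x :: y :: l).length = n + 2 → Good k (a ++ x :: y :: l) →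
        Good k (a ++ y :: x :: l) := by
      intro x y ha hg
      have hlen : (l ++ a).length = n := by simp at ha ⊢; omega
      have h1 : Good k (x :: y :: (l ++ a)) := by
        have := rot (x :: y :: l) a (by simp at ha ⊢; omega) hg
        simpa using this
      have h2 := key x y (l ++ a) hlen h1
      exact rot a (y :: x :: l) (by simp at ha ⊢; omega) (by simpa using h2)
    exact ⟨step y x ha, step x y (by simpa using ha)⟩
  | trans h1 h2 ih1 ih2 =>
    intro a ha
    rw [ih1 a ha]
    apply ih2 a
    rw [List.length_append, ← h1.length_eq, ← List.length_append]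
    exact ha

/-- Cohn's theorem: over at most three letters every symmetrized word is a Jordan polynomial. -/
theorem cohn [CharZero k] [Fintype X] [DecidableEq X] (hX : Fintype.card X ≤ 3) (n : ℕ) :
    ∀ l : List X, l.length = n → l ≠ [] → Good k l := by
  induction n using Nat.strong_induction_on with
  | _ n IH =>
    intro l hl hne
    match n, IH, hl with
    | 0, _, hl => exact absurd (List.length_eq_zero_iff.1 hl) hne
    | 1, _, hl =>
      obtain ⟨x, rfl⟩ := List.length_eq_one_iff.1 hl
      exact (SJ k _).add_mem (wd_single_mem x) (wd_single_mem x)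
    | 2, _, hl =>
      obtain ⟨x, y, rfl⟩ := List.length_eq_two.1 hl
      have h := SJ_mul (wd_single_mem (k := k) x) (wd_single_mem (k := k) y)
      have h1 : wt [x] + wt [y] = wt [x, y] := by
        simp only [wt_cons, wt_nil, add_zero]
      rw [h1] at h
      unfold Good
      convert h using 1
      simp [br, wd_mul]
    | m + 3, IH, hl =>
      have IH1 : ∀ v : List X, v.length = m + 2 → Good k v := fun v hv =>
        IH (m + 2) (by omega) v hv (by rintro rfl; simp at hv)
      have IH2 : ∀ v : List X, v.length = m + 1 → Good k v := fun v hv =>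
        IH (m + 1) (by omega) v hv (by rintro rfl; simp at hv)
      rcases Nat.even_or_odd m with hm | hm
      · exact good_of_odd (m + 2) (by simpa [parity_simps] using hm) IH1 l hl
      · -- even length at least four: there is a repeated letter
        have hm1 : 1 ≤ m := hm.pos
        have hnd : ¬ l.Nodup := by
          intro hnd
          have := hnd.length_le_card
          omega
        rw [List.nodup_iff_count_le_one] at hnd
        push Not at hnd
        obtain ⟨x, hx⟩ := hnd
        have hx1 : x ∈ l := List.count_pos_iff.1 (by omega)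
        have hx2 : x ∈ l.erase x := by
          apply List.count_pos_iff.1
          rw [List.count_erase_self]
          omega
        have hperm : l.Perm (x :: x :: (l.erase x).erase x) :=
          (List.perm_cons_erase hx1).trans ((List.perm_cons_erase hx2).cons x)
        have := (good_perm (k := k) (m + 1) IH1 IH2 hperm [] (by simpa using hl)).2
        rw [List.nil_append] at this
        apply this
        have hlen : ((l.erase x).erase x).length = m + 1 := by
          have := hperm.length_eq
          simp at this
          omega
        have h := swap_mem' (k := k) (m + 1) IH1 IH2 x x ((l.erase x).erase x) hlen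
        exact two_smul_mem h

/-! ### Finite dimensionality -/

/-- The set of nonassociative monomials of given multidegree is finite. -/
theorem finite_multideg [Finite X] (w : X →₀ ℕ) : {m : FreeMagma X | multideg m = w}.Finite := by
  classical
  have key : ∀ n : ℕ, {m : FreeMagma X | m.length ≤ n}.Finite := by
    intro n
    induction n with
    | zero =>
      convert Set.finite_empty
      ext m
      simp only [Set.mem_ofPred_eq, Set.mem_empty_iff_false, iff_false]
      have := FreeMagma.length_pos m
      omega
    | succ n ih =>
      have : {m : FreeMagma X | m.length ≤ n + 1} ⊆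
          Set.range FreeMagma.of ∪ Set.image2 (fun a b => a * b) {m : FreeMagma X | m.length ≤ n}
            {m : FreeMagma X | m.length ≤ n} := by
        intro m hm
        cases m with
        | of x => left; exact ⟨x, rfl⟩
        | mul a b =>
          right
          have ha := FreeMagma.length_pos a
          have hb := FreeMagma.length_pos b
          have hab : a.length + b.length ≤ n + 1 := hm
          exact ⟨a, by simp only [Set.mem_ofPred_eq]; omega, b,
            by simp only [Set.mem_ofPred_eq]; omega, rfl⟩
      exact ((Set.finite_range _).union (ih.image2 _ ih)).subset this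
  have hlen : ∀ m : FreeMagma X, m.length = (multideg m).degree := by
    intro m
    induction m with
    | ih1 x => simp [multideg, FreeMagma.length]
    | ih2 a b ha hb =>
      rw [multideg_mul, map_add, ← ha, ← hb]
      rfl
  refine (key w.degree).subset ?_
  rintro m rfl
  exact (hlen m).le

variable (k)

instance [Finite X] (w : X →₀ ℕ) : FiniteDimensional k (weightSpace k w) := by
  rw [weightSpace]
  apply FiniteDimensional.span_of_finite
  refine ((finite_multideg w).image (fun m => (Submodule.Quotient.mk
    (MonoidAlgebra.single m (1 : k)) : FreeJordan k X))).subset ?_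
  rintro y ⟨m, hm, rfl⟩
  exact ⟨m, hm, rfl⟩

theorem finrank_SJ_le [Finite X] (w : X →₀ ℕ) :
    Module.finrank k (SJ k w) ≤ Module.finrank k (weightSpace k w) := by
  rw [SJ_eq_map]
  exact Submodule.finrank_map_le _ _

instance [Finite X] (w : X →₀ ℕ) : FiniteDimensional k (SJ k w) := by
  rw [SJ_eq_map]
  infer_instance

/-- Linear independence of symmetrized words, and the resulting bound. -/
theorem card_le_finrank [CharZero k] [Fintype X] [LinearOrder X] (hX : Fintype.card X ≤ 3)
    (w : X →₀ ℕ) (hw : w ≠ 0) (T : Finset (List X)) (hT : ∀ l ∈ T, wt l = w)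
    (hT' : ∀ l ∈ T, l ≤ l.reverse) :
    T.card ≤ Module.finrank k (weightSpace k w) := by
  classical
  refine le_trans ?_ (finrank_SJ_le k w)
  -- the family of symmetrized words
  let f : T → SJ k w := fun l => ⟨br k l.1, by
    have hne : l.1 ≠ [] := by
      intro h
      apply hw
      rw [← hT l.1 l.2, h, wt_nil]
    have := cohn (k := k) hX l.1.length l.1 rfl hne
    unfold Good at this
    rwa [hT l.1 l.2] at this⟩
  have hli : LinearIndependent k f := by
    rw [Fintype.linearIndependent_iff]
    intro g hg l
    have h1 : ∑ l : T, g l • br k l.1 = 0 := by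
      have := congrArg (Subtype.val) hg
      simpa [f] using this
    have h2 := congrArg (fun x => MonoidAlgebra.coeff x (FreeMonoid.ofList l.1)) h1
    simp only [MonoidAlgebra.coeff_sum, MonoidAlgebra.coeff_smul, Finsupp.coe_finsetSum,
      Finset.sum_apply, Finsupp.coe_smul, Pi.smul_apply, MonoidAlgebra.coeff_zero,
      Finsupp.coe_zero, Pi.zero_apply] at h2
    rw [Finset.sum_eq_single l] at h2
    · have h3 : (br k l.1).coeff (FreeMonoid.ofList l.1) ≠ 0 := by
        simp only [br, wd, MonoidAlgebra.coeff_add, MonoidAlgebra.coeff_single, Finsupp.coe_add,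
          Pi.add_apply, Finsupp.single_eq_same, Finsupp.single_apply]
        split_ifs
        · norm_num
        · norm_num
      rcases mul_eq_zero.1 h2 with h | h
      · exact h
      · exact absurd h h3
    · intro l' _ hne
      have hne' : l'.1 ≠ l.1 := fun h => hne (Subtype.ext h)
      have hne'' : l'.1.reverse ≠ l.1 := by
        intro h
        have h4 := hT' l.1 l.2
        have h5 := hT' l'.1 l'.2
        rw [← h, List.reverse_reverse] at h4
        exact hne' ((le_antisymm h5 h4).trans h)
      have : (br k l'.1).coeff (FreeMonoid.ofList l.1) = 0 := by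
        simp only [br, wd, MonoidAlgebra.coeff_add, MonoidAlgebra.coeff_single, Finsupp.coe_add,
          Pi.add_apply, Finsupp.single_apply]
        rw [if_neg, if_neg, add_zero]
        · exact fun h => hne'' (FreeMonoid.ofList.injective h)
        · exact fun h => hne' (FreeMonoid.ofList.injective h)
      rw [this, smul_zero]
    · intro h
      exact absurd (Finset.mem_univ _) h
  have := hli.fintype_card_le_finrank
  simpa using this

end Special

section Count

/-- The words of length `n` with `a` letters `0`, `b` letters `1` and `c` letters `2`. -/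
def ws : ℕ → ℕ → ℕ → ℕ → Finset (List (Fin 3))
  | 0, a, b, c => if a = 0 ∧ b = 0 ∧ c = 0 then {[]} else ∅
  | n + 1, a, b, c =>
    (if a = 0 then ∅ else (ws n (a - 1) b c).map ⟨List.cons 0, List.cons_injective⟩) ∪
    ((if b = 0 then ∅ else (ws n a (b - 1) c).map ⟨List.cons 1, List.cons_injective⟩) ∪
    (if c = 0 then ∅ else (ws n a b (c - 1)).map ⟨List.cons 2, List.cons_injective⟩))

/-- The number of such words. -/
def wsCount : ℕ → ℕ → ℕ → ℕ → ℕ
  | 0, a, b, c => if a = 0 ∧ b = 0 ∧ c = 0 then 1 else 0
  | n + 1, a, b, c =>
    (if a = 0 then 0 else wsCount n (a - 1) b c) +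
    ((if b = 0 then 0 else wsCount n a (b - 1) c) +
    (if c = 0 then 0 else wsCount n a b (c - 1)))

theorem card_ws (n : ℕ) : ∀ a b c : ℕ, (ws n a b c).card = wsCount n a b c := by
  induction n with
  | zero =>
    intro a b c
    simp only [ws, wsCount]
    split_ifs <;> simp
  | succ n ih =>
    intro a b c
    rw [ws, wsCount, Finset.card_union_of_disjoint, Finset.card_union_of_disjoint]
    · congr 1
      · split_ifs <;> simp [ih]
      · congr 1 <;> split_ifs <;> simp [ih]
    · rw [Finset.disjoint_left]
      intro l h1 h2
      split_ifs at h1 h2 <;> simp_all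
      obtain ⟨l1, -, rfl⟩ := h1
      obtain ⟨l2, -, h2⟩ := h2
      simp at h2
    · rw [Finset.disjoint_left]
      intro l h1 h2
      rw [Finset.mem_union] at h2
      split_ifs at h1 h2 <;> simp_all
      all_goals
        obtain ⟨l1, -, rfl⟩ := h1
        simp at h2

theorem mem_ws (n : ℕ) : ∀ (a b c : ℕ) (l : List (Fin 3)), l ∈ ws n a b c →
    l.count 0 = a ∧ l.count 1 = b ∧ l.count 2 = c := by
  induction n with
  | zero =>
    intro a b c l hl
    simp only [ws] at hl
    split_ifs at hl with h
    · obtain ⟨rfl, rfl, rfl⟩ := h
      simp at hl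
      simp [hl]
    · simp at hl
  | succ n ih =>
    intro a b c l hl
    rw [ws, Finset.mem_union, Finset.mem_union] at hl
    rcases hl with hl | hl | hl
    · split_ifs at hl with h
      · simp at hl
      · obtain ⟨l', hl', rfl⟩ := Finset.mem_map.1 hl
        obtain ⟨h1, h2, h3⟩ := ih _ _ _ _ hl'
        refine ⟨?_, ?_, ?_⟩
        · simp [h1]; omega
        · simpa using h2
        · simpa using h3
    · split_ifs at hl with h
      · simp at hl
      · obtain ⟨l', hl', rfl⟩ := Finset.mem_map.1 hl
        obtain ⟨h1, h2, h3⟩ := ih _ _ _ _ hl'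
        refine ⟨?_, ?_, ?_⟩
        · simpa using h1
        · simp [h2]; omega
        · simpa using h3
    · split_ifs at hl with h
      · simp at hl
      · obtain ⟨l', hl', rfl⟩ := Finset.mem_map.1 hl
        obtain ⟨h1, h2, h3⟩ := ih _ _ _ _ hl'
        refine ⟨?_, ?_, ?_⟩
        · simpa using h1
        · simpa using h2
        · simp [h3]; omega

theorem mem_ws' (n : ℕ) : ∀ (a b c : ℕ) (l : List (Fin 3)), a + b + c = n →
    l.count 0 = a → l.count 1 = b → l.count 2 = c → l ∈ ws n a b c := by
  induction n with
  | zero =>
    intro a b c l hn h0 h1 h2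
    cases l with
    | nil => simp at h0 h1 h2; subst h0 h1 h2; simp [ws]
    | cons x l =>
      exfalso
      fin_cases x
      · simp at h0; omega
      · simp at h1; omega
      · simp at h2; omega
  | succ n ih =>
    intro a b c l hn h0 h1 h2
    cases l with
    | nil => simp at h0 h1 h2; omega
    | cons x l =>
      rw [ws, Finset.mem_union, Finset.mem_union]
      fin_cases x
      · left
        simp at h0 h1 h2
        rw [if_neg (by omega), Finset.mem_map]
        exact ⟨l, ih _ _ _ l (by omega) (by omega) h1 h2, rfl⟩
      · right; left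
        simp at h0 h1 h2
        rw [if_neg (by omega), Finset.mem_map]
        exact ⟨l, ih _ _ _ l (by omega) h0 (by omega) h2, rfl⟩
      · right; right
        simp at h0 h1 h2
        rw [if_neg (by omega), Finset.mem_map]
        exact ⟨l, ih _ _ _ l (by omega) h0 h1 (by omega), rfl⟩

/-- The weight `(6, 6, 1)`. -/
noncomputable def w661 : Fin 3 →₀ ℕ :=
  Finsupp.single 0 6 + Finsupp.single 1 6 + Finsupp.single 2 1

theorem wt_eq (l : List (Fin 3)) : wt l = Finsupp.single 0 (l.count 0) +
    Finsupp.single 1 (l.count 1) + Finsupp.single 2 (l.count 2) := by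
  induction l with
  | nil => simp [wt]
  | cons x l ih =>
    rw [wt_cons, ih]
    fin_cases x <;> (ext i; fin_cases i <;> simp <;> omega)

theorem count_bound : 6016 ≤ ((ws 13 6 6 1).filter fun l => l ≤ l.reverse).card := by
  set L := ws 13 6 6 1 with hL
  have hmem : ∀ l, l ∈ L ↔ (l.count 0 = 6 ∧ l.count 1 = 6 ∧ l.count 2 = 1) := fun l =>
    ⟨mem_ws 13 6 6 1 l, fun h => mem_ws' 13 6 6 1 l rfl h.1 h.2.1 h.2.2⟩
  set T := L.filter fun l => l ≤ l.reverse with hT
  set T' := L.filter fun l => l.reverse ≤ l with hT'
  have hcard : T.card = T'.card := by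
    apply Finset.card_bij (fun l _ => l.reverse)
    · intro l hl
      rw [hT, Finset.mem_filter, hmem] at hl
      rw [hT', Finset.mem_filter, hmem]
      simpa using hl
    · intro l _ l' _ h
      exact List.reverse_injective h
    · intro l hl
      rw [hT', Finset.mem_filter, hmem] at hl
      refine ⟨l.reverse, ?_, List.reverse_reverse l⟩
      rw [hT, Finset.mem_filter, hmem]
      simpa using hl
  have hunion : T ∪ T' = L := by
    ext l
    rw [Finset.mem_union, hT, hT', Finset.mem_filter, Finset.mem_filter]
    constructor
    · rintro (h | h) <;> exact h.1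
    · intro h
      rcases le_total l l.reverse with h' | h'
      · left; exact ⟨h, h'⟩
      · right; exact ⟨h, h'⟩
  have hinter : 20 ≤ (T ∩ T').card := by
    have h20 : (ws 6 3 3 0).card = 20 := by rw [card_ws]; decide +kernel
    rw [← h20]
    apply Finset.card_le_card_of_injOn (fun l => l ++ [2] ++ l.reverse)
    · intro l hl
      have hl' := mem_ws 6 3 3 0 l hl
      have hrev : (l ++ [2] ++ l.reverse).reverse = l ++ [2] ++ l.reverse := by simp
      have : l ++ [2] ++ l.reverse ∈ L := by
        rw [hmem]
        simp [hl']
      simp only [Finset.coe_inter, Set.mem_inter_iff, Finset.mem_coe]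
      rw [hT, hT', Finset.mem_filter, Finset.mem_filter, hrev]
      exact ⟨⟨this, le_rfl⟩, ⟨this, le_rfl⟩⟩
    · intro l hl l' hl' h
      have h1 := mem_ws 6 3 3 0 l hl
      have h2 := mem_ws 6 3 3 0 l' hl'
      have hlen : l.length = l'.length := by
        have := congrArg List.length h
        simp at this
        omega
      have h3 : l ++ ([2] ++ l.reverse) = l' ++ ([2] ++ l'.reverse) := by
        simpa using h
      exact (List.append_inj h3 hlen).1
  have hLcard : L.card = 12012 := by rw [hL, card_ws]; decide +kernel
  have := Finset.card_union_add_card_inter T T'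
  rw [hunion, hLcard] at this
  omega

/-- The lower bound for the weight `(6, 6, 1)` part of the free Jordan algebra on three
generators. -/
theorem finrank_w661 (k : Type*) [Field k] [CharZero k] :
    6016 ≤ Module.finrank k (weightSpace k w661) := by
  refine le_trans count_bound (card_le_finrank k (by simp) w661 ?_ _ ?_ ?_)
  · intro h
    have := DFunLike.congr_fun h 2
    simp [w661] at this
  · intro l hl
    rw [Finset.mem_filter] at hl
    obtain ⟨h0, h1, h2⟩ := mem_ws _ _ _ _ _ hl.1
    rw [wt_eq, h0, h1, h2, w661]
  · intro l hl
    rw [Finset.mem_filter] at hl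
    exact hl.2

end Count

end Pool.Agent.Work.MP_dbd475_al
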