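import Mathlib

/-!
# Definitions for the Kashuba–Mathieu character conjecture on free Jordan algebras

`V = k^n` with its standard basis indexed by `Fin n`; the free Jordan algebra `Jord(V)` is the
quotient of the free nonassociative algebra on `Fin n` by the ideal of Jordan relations.
A polynomial `GL(V)`-module is recorded by its formal character, i.e. by the power series in
`z_1, …, z_n` whose coefficient at `z^w` is the multiplicity of the weight `w` of the diagonal
torus.  The weights of (the torus of) `PSL_2` are recorded by Laurent polynomials in `T`.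
-/

set_option autoImplicit false

open MvPowerSeries LaurentPolynomial

namespace Pool.Agent.Work.MP_dbd475_al

section Jordan

variable (k : Type*) [Field k] (X : Type*)

/-- The ideal of Jordan relations in the free nonassociative algebra `k{X}`: the smallest
subspace which contains all `a b - b a` and all `((a a) b) a - (a a) (b a)` and which is stable
under left and right multiplications. -/
noncomputable def jordanIdeal : Submodule k (FreeNonUnitalNonAssocAlgebra k X) :=
  sInf {S : Submodule k (FreeNonUnitalNonAssocAlgebra k X) |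
    (∀ a b : FreeNonUnitalNonAssocAlgebra k X, a * b - b * a ∈ S) ∧
    (∀ a b : FreeNonUnitalNonAssocAlgebra k X, ((a * a) * b) * a - (a * a) * (b * a) ∈ S) ∧
    (∀ a x : FreeNonUnitalNonAssocAlgebra k X, x ∈ S → a * x ∈ S ∧ x * a ∈ S)}

/-- The free Jordan algebra on `X` (as a vector space): the quotient of the free nonassociative
algebra `k{X}` by the ideal of Jordan relations. -/
abbrev FreeJordan : Type _ := FreeNonUnitalNonAssocAlgebra k X ⧸ jordanIdeal k X

variable {X}

/-- The multidegree of a nonassociative monomial: how often each letter occurs. -/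
noncomputable def multideg : FreeMagma X → (X →₀ ℕ)
  | .of x => Finsupp.single x 1
  | .mul a b => multideg a + multideg b

/-- The weight space of weight `w` of the diagonal torus in the free Jordan algebra: the span of
the images of the nonassociative monomials of multidegree `w`. -/
noncomputable def weightSpace (w : X →₀ ℕ) : Submodule k (FreeJordan k X) :=
  Submodule.span k {y | ∃ m : FreeMagma X, multideg m = w ∧
    y = Submodule.Quotient.mk (MonoidAlgebra.single m (1 : k))}

variable (X)

/-- The character of the free Jordan algebra: the coefficient at `z^w` is the dimension of the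
weight space of weight `w`. -/
noncomputable def jordanChar : MvPowerSeries X ℤ :=
  fun w => (Module.finrank k (weightSpace k w) : ℤ)

end Jordan

section Lambda

variable {n : ℕ}

/-- Integer powers of a power series (used for series with constant coefficient `1`). -/
noncomputable def intPow (f : MvPowerSeries (Fin n) ℤ[T;T⁻¹]) (m : ℤ) :
    MvPowerSeries (Fin n) ℤ[T;T⁻¹] :=
  f ^ m.toNat * Ring.inverse f ^ (-m).toNat

/-- The finite product `∏_{w ∈ E} ∏_j (1 - T^j z^w)^{x_{w,j}}`, where `x_{w,j}` is the
coefficient of `T^j z^w` in `x`. -/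
noncomputable def lamProd (x : MvPowerSeries (Fin n) ℤ[T;T⁻¹]) (E : Finset (Fin n →₀ ℕ)) :
    MvPowerSeries (Fin n) ℤ[T;T⁻¹] :=
  ∏ w ∈ E, ∏ j ∈ (coeff w x).coeff.support, intPow (1 - monomial w (T j)) ((coeff w x).coeff j)

/-- The operation `λ` on (virtual) characters `x = ∑ x_{w,j} T^j z^w` without constant term:
`λ(x) = ∏_{w ≠ 0} ∏_j (1 - T^j z^w)^{x_{w,j}}`, an infinite product whose coefficient at `z^v`
only involves the factors with `0 ≠ w ≤ v`.  It is the multiplicative extension of
`[U] ↦ ∑_j (-1)^j [Λ^j U]`. -/
noncomputable def lam (x : MvPowerSeries (Fin n) ℤ[T;T⁻¹]) : MvPowerSeries (Fin n) ℤ[T;T⁻¹] :=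
  fun v => coeff v (lamProd x ((Finset.Iic v).erase 0))

/-- The character `T + 1 + T⁻¹` of the adjoint `PSL_2`-module `L(2)`. -/
noncomputable def charL2 : ℤ[T;T⁻¹] := T 1 + 1 + T (-1)

/-- The series `Φ = λ(a [L(2)] + b [L(0)])`. -/
noncomputable def Phi (a b : MvPowerSeries (Fin n) ℤ) : MvPowerSeries (Fin n) ℤ[T;T⁻¹] :=
  lam (map (algebraMap ℤ ℤ[T;T⁻¹]) a * MvPowerSeries.C charL2 + map (algebraMap ℤ ℤ[T;T⁻¹]) b)

/-- The multiplicity `[f : [L(2 m)]]` of the irreducible `PSL_2`-module `L(2 m)`, whose weights
are `T^m, T^(m-1), …, T^(-m)`, each once: the multiplicity of the weight `m` minus the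
multiplicity of the weight `m + 1`. -/
noncomputable def mult (m : ℕ) (f : MvPowerSeries (Fin n) ℤ[T;T⁻¹]) : MvPowerSeries (Fin n) ℤ :=
  fun v => (coeff v f).coeff (m : ℤ) - (coeff v f).coeff ((m : ℤ) + 1)

/-- The pair `(a, b)` satisfies the conditions defining `(a(V), b(V))`, for `V` with basis
`Fin n`: no constant terms, `[Φ : [L(0)]] = 1` and `[Φ : [L(2)]] = -[V]`. -/
structure IsKMPair (a b : MvPowerSeries (Fin n) ℤ) : Prop where
  constantCoeff_a : constantCoeff a = 0
  constantCoeff_b : constantCoeff b = 0
  mult_zero : mult 0 (Phi a b) = 1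
  mult_one : mult 1 (Phi a b) = - ∑ i : Fin n, X i

end Lambda

end Pool.Agent.Work.MP_dbd475_al
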