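import Pool.Agent.Work.MP_dbd475_al.Defs

/-!
# The logarithmic-derivative recursion for `lam`
-/

set_option autoImplicit false

open MvPowerSeries LaurentPolynomial

namespace Pool.Agent.Work.MP_dbd475_al

variable {n : ℕ}

/-- The Euler derivation. -/
noncomputable def theta (f : MvPowerSeries (Fin n) ℤ[T;T⁻¹]) : MvPowerSeries (Fin n) ℤ[T;T⁻¹] :=
  fun v => (v.degree : ℤ[T;T⁻¹]) * coeff v f

theorem coeff_theta (f : MvPowerSeries (Fin n) ℤ[T;T⁻¹]) (v : Fin n →₀ ℕ) :
    coeff v (theta f) = (v.degree : ℤ[T;T⁻¹]) * coeff v f := rfl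

theorem theta_mul (f g : MvPowerSeries (Fin n) ℤ[T;T⁻¹]) :
    theta (f * g) = theta f * g + f * theta g := by
  classical
  ext1 v
  rw [coeff_theta, map_add, coeff_mul, coeff_mul, coeff_mul, Finset.mul_sum,
    ← Finset.sum_add_distrib]
  apply Finset.sum_congr rfl
  rintro ⟨p, q⟩ hpq
  rw [Finset.HasAntidiagonal.mem_antidiagonal] at hpq
  simp only at hpq
  rw [coeff_theta, coeff_theta, ← hpq, map_add]
  push_cast
  ring

theorem theta_one : theta (1 : MvPowerSeries (Fin n) ℤ[T;T⁻¹]) = 0 := by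
  classical
  ext1 v
  rw [coeff_theta, coeff_one]
  split_ifs with h
  · subst h; simp
  · simp

/-- The logarithmic derivative, as a homomorphism. -/
noncomputable def dlog : (MvPowerSeries (Fin n) ℤ[T;T⁻¹])ˣ →*
    Multiplicative (MvPowerSeries (Fin n) ℤ[T;T⁻¹]) where
  toFun u := Multiplicative.ofAdd (theta u.val * u⁻¹.val)
  map_one' := by simp [theta_one]
  map_mul' u v := by
    rw [← ofAdd_add]
    congr 1
    rw [Units.val_mul, theta_mul, mul_inv, Units.val_mul]
    have hu : u.val * u⁻¹.val = 1 := u.mul_inv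
    have hv : v.val * v⁻¹.val = 1 := v.mul_inv
    linear_combination (theta u.val * u⁻¹.val) * hv + (theta v.val * v⁻¹.val) * hu

/-- The series `∑_m T^(m j) z^(m w)`. -/
noncomputable def geo (w : Fin n →₀ ℕ) (j : ℤ) : MvPowerSeries (Fin n) ℤ[T;T⁻¹] :=
  fun v => ∑ m ∈ Finset.range (v.degree + 1), if m • w = v then T (m * j) else 0

theorem degree_pos {w : Fin n →₀ ℕ} (hw : w ≠ 0) : 0 < w.degree := by
  rw [Nat.pos_iff_ne_zero, Ne, Finsupp.degree_eq_zero_iff]
  exact hw

theorem coeff_geo {w : Fin n →₀ ℕ} (hw : w ≠ 0) (j : ℤ) (v : Fin n →₀ ℕ) {N : ℕ}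
    (hN : v.degree + 1 ≤ N) :
    coeff v (geo w j) = ∑ m ∈ Finset.range N, if m • w = v then T (m * j) else 0 := by
  change ∑ m ∈ Finset.range (v.degree + 1), _ = _
  apply Finset.sum_subset
  · intro m hm
    rw [Finset.mem_range] at hm ⊢
    omega
  · intro m _ hm
    rw [Finset.mem_range] at hm
    rw [if_neg]
    rintro rfl
    rw [map_nsmul, smul_eq_mul] at hm
    have := degree_pos hw
    have : m ≤ m * w.degree := Nat.le_mul_of_pos_right _ this
    omega

theorem geo_spec {w : Fin n →₀ ℕ} (hw : w ≠ 0) (j : ℤ) :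
    (1 - monomial w (T j)) * geo w j = 1 := by
  classical
  ext1 v
  rw [sub_mul, one_mul, map_sub, coeff_monomial_mul, coeff_one,
    coeff_geo hw j v (N := v.degree + 2) (by omega), Finset.sum_range_succ']
  simp only [zero_smul, Nat.cast_zero, zero_mul, T_zero]
  have key : ∀ m : ℕ, ((m + 1) • w = v) ↔ (w ≤ v ∧ m • w = v - w) := by
    intro m
    constructor
    · rintro rfl
      rw [add_smul, one_smul]
      exact ⟨le_add_self, (add_tsub_cancel_right _ _).symm⟩
    · rintro ⟨h1, h2⟩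
      rw [add_smul, one_smul, h2, tsub_add_cancel_of_le h1]
  by_cases hwv : w ≤ v
  · rw [if_pos hwv, coeff_geo hw j (v - w) (N := v.degree + 1), Finset.mul_sum]
    · have : ∀ m ∈ Finset.range (v.degree + 1),
          (if (m + 1) • w = v then (T (((m + 1 : ℕ) : ℤ) * j) : ℤ[T;T⁻¹]) else 0) =
          T j * (if m • w = v - w then T (m * j) else 0) := by
        intro m _
        by_cases h : m • w = v - w
        · rw [if_pos h, if_pos ((key m).2 ⟨hwv, h⟩), ← T_add]
          congr 1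
          push_cast; ring
        · rw [if_neg h, if_neg (fun h' => h ((key m).1 h').2), mul_zero]
      rw [Finset.sum_congr rfl this, add_sub_cancel_left]
      simp only [eq_comm]
    · have : (v - w).degree + w.degree = v.degree := by
        rw [← map_add, tsub_add_cancel_of_le hwv]
      omega
  · rw [if_neg hwv, sub_zero]
    have : ∀ m ∈ Finset.range (v.degree + 1),
          (if (m + 1) • w = v then (T (((m + 1 : ℕ) : ℤ) * j) : ℤ[T;T⁻¹]) else 0) = 0 := by
      intro m _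
      rw [if_neg (fun h' => hwv ((key m).1 h').1)]
    rw [Finset.sum_congr rfl this, Finset.sum_const_zero, zero_add]
    simp only [eq_comm]

/-- The unit `1 - T^j z^w`. -/
noncomputable def unitF (w : Fin n →₀ ℕ) (hw : w ≠ 0) (j : ℤ) :
    (MvPowerSeries (Fin n) ℤ[T;T⁻¹])ˣ where
  val := 1 - monomial w (T j)
  inv := geo w j
  val_inv := geo_spec hw j
  inv_val := by rw [mul_comm]; exact geo_spec hw j

theorem intPow_unit (u : (MvPowerSeries (Fin n) ℤ[T;T⁻¹])ˣ) (m : ℤ) :
    intPow (u : MvPowerSeries (Fin n) ℤ[T;T⁻¹]) m = ((u ^ m : (MvPowerSeries (Fin n) ℤ[T;T⁻¹])ˣ) :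
      MvPowerSeries (Fin n) ℤ[T;T⁻¹]) := by
  unfold intPow
  rw [Ring.inverse_unit]
  cases m with
  | ofNat m => simp
  | negSucc m => simp [zpow_negSucc]

/-- `dlog` of `1 - T^j z^w`. -/
theorem dlog_unitF (w : Fin n →₀ ℕ) (hw : w ≠ 0) (j : ℤ) :
    Multiplicative.toAdd (dlog (unitF w hw j)) =
      - ((w.degree : MvPowerSeries (Fin n) ℤ[T;T⁻¹]) * (geo w j - 1)) := by
  classical
  have h1 : theta (1 - monomial w (T j) : MvPowerSeries (Fin n) ℤ[T;T⁻¹]) =
      -((w.degree : MvPowerSeries (Fin n) ℤ[T;T⁻¹]) * monomial w (T j)) := by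
    ext1 v
    have h3 : coeff v ((w.degree : MvPowerSeries (Fin n) ℤ[T;T⁻¹]) * monomial w (T j)) =
        (w.degree : ℤ[T;T⁻¹]) * coeff v (monomial w (T j)) := by
      rw [← nsmul_eq_mul, map_nsmul, nsmul_eq_mul]
    rw [coeff_theta, map_neg, h3, map_sub, coeff_monomial, coeff_one]
    by_cases hv : v = w
    · subst hv
      rw [if_neg hw, if_pos rfl, zero_sub, mul_neg]
    · rw [if_neg hv]
      split_ifs with h
      · subst h; simp
      · simp
  have h2 := geo_spec hw j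
  change theta (1 - monomial w (T j) : MvPowerSeries (Fin n) ℤ[T;T⁻¹]) * geo w j = _
  rw [h1]
  linear_combination (w.degree : MvPowerSeries (Fin n) ℤ[T;T⁻¹]) * h2

/-- Adams operation on Laurent polynomials. -/
noncomputable def psi (m : ℕ) (r : ℤ[T;T⁻¹]) : ℤ[T;T⁻¹] :=
  r.coeff.sum fun j c => c • T (m * j)

/-- The negative of the logarithmic derivative of `lam x`. -/
noncomputable def Pser (x : MvPowerSeries (Fin n) ℤ[T;T⁻¹]) : MvPowerSeries (Fin n) ℤ[T;T⁻¹] :=
  fun v => ∑ m ∈ Finset.Icc 1 v.degree, ∑ w ∈ Finset.Iic v,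
    if m • w = v then (w.degree : ℤ[T;T⁻¹]) * psi m (coeff w x) else 0

open Classical in
/-- The unit `1 - T^j z^w` for `w ≠ 0`, and `1` for `w = 0`. -/
noncomputable def uf (w : Fin n →₀ ℕ) (j : ℤ) : (MvPowerSeries (Fin n) ℤ[T;T⁻¹])ˣ :=
  if h : w = 0 then 1 else unitF w h j

theorem uf_of_ne {w : Fin n →₀ ℕ} (hw : w ≠ 0) (j : ℤ) : uf w j = unitF w hw j := by
  rw [uf, dif_neg hw]

theorem uf_val {w : Fin n →₀ ℕ} (hw : w ≠ 0) (j : ℤ) :
    (uf w j : MvPowerSeries (Fin n) ℤ[T;T⁻¹]) = 1 - monomial w (T j) := by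
  rw [uf_of_ne hw]; rfl

/-- The finite product as a unit. -/
noncomputable def lamUnit (x : MvPowerSeries (Fin n) ℤ[T;T⁻¹]) (E : Finset (Fin n →₀ ℕ)) :
    (MvPowerSeries (Fin n) ℤ[T;T⁻¹])ˣ :=
  ∏ w ∈ E, ∏ j ∈ (coeff w x).coeff.support, uf w j ^ ((coeff w x).coeff j)

theorem lamProd_eq (x : MvPowerSeries (Fin n) ℤ[T;T⁻¹]) (E : Finset (Fin n →₀ ℕ)) (h0 : 0 ∉ E) :
    lamProd x E = (lamUnit x E : MvPowerSeries (Fin n) ℤ[T;T⁻¹]) := by
  rw [lamProd, lamUnit, Units.coe_prod]
  apply Finset.prod_congr rfl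
  intro w hw
  rw [Units.coe_prod]
  apply Finset.prod_congr rfl
  intro j _
  have hw0 : w ≠ 0 := fun h => h0 (h ▸ hw)
  rw [← uf_val hw0, intPow_unit]

/-- The negative logarithmic derivative of the finite product. -/
noncomputable def PE (x : MvPowerSeries (Fin n) ℤ[T;T⁻¹]) (E : Finset (Fin n →₀ ℕ)) :
    MvPowerSeries (Fin n) ℤ[T;T⁻¹] :=
  ∑ w ∈ E, ∑ j ∈ (coeff w x).coeff.support, ((coeff w x).coeff j) •
    ((w.degree : MvPowerSeries (Fin n) ℤ[T;T⁻¹]) * (geo w j - 1))

theorem theta_lamProd (x : MvPowerSeries (Fin n) ℤ[T;T⁻¹]) (E : Finset (Fin n →₀ ℕ))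
    (h0 : 0 ∉ E) : theta (lamProd x E) = - (PE x E * lamProd x E) := by
  rw [lamProd_eq x E h0]
  have h1 : theta (lamUnit x E : MvPowerSeries (Fin n) ℤ[T;T⁻¹]) =
      Multiplicative.toAdd (dlog (lamUnit x E)) * (lamUnit x E) := by
    change _ = theta (lamUnit x E).val * ((lamUnit x E)⁻¹).val * (lamUnit x E).val
    rw [mul_assoc, Units.inv_mul, mul_one]
  have h2 : Multiplicative.toAdd (dlog (lamUnit x E)) = - PE x E := by
    rw [lamUnit, map_prod, toAdd_prod, PE, ← Finset.sum_neg_distrib]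
    apply Finset.sum_congr rfl
    intro w hw
    rw [map_prod, toAdd_prod, ← Finset.sum_neg_distrib]
    apply Finset.sum_congr rfl
    intro j _
    have hw0 : w ≠ 0 := fun h => h0 (h ▸ hw)
    rw [map_zpow, toAdd_zpow, uf_of_ne hw0, dlog_unitF, smul_neg]
  rw [h1, h2, neg_mul]

theorem coeff_PE (x : MvPowerSeries (Fin n) ℤ[T;T⁻¹]) (E : Finset (Fin n →₀ ℕ))
    (h0 : 0 ∉ E) (p : Fin n →₀ ℕ) (hp : (Finset.Iic p).erase 0 ⊆ E) :
    coeff p (PE x E) = Pser x p := by
  classical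
  -- coefficient of one summand
  have h1 : ∀ w ∈ E, coeff p (∑ j ∈ (coeff w x).coeff.support, ((coeff w x).coeff j) •
      ((w.degree : MvPowerSeries (Fin n) ℤ[T;T⁻¹]) * (geo w j - 1))) =
      ∑ m ∈ Finset.Icc 1 p.degree,
        if m • w = p then (w.degree : ℤ[T;T⁻¹]) * psi m (coeff w x) else 0 := by
    intro w hw
    have hw0 : w ≠ 0 := fun h => h0 (h ▸ hw)
    have h2 : ∀ j : ℤ, coeff p (((coeff w x).coeff j) •
        ((w.degree : MvPowerSeries (Fin n) ℤ[T;T⁻¹]) * (geo w j - 1))) =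
        ∑ m ∈ Finset.Icc 1 p.degree, if m • w = p then
          (w.degree : ℤ[T;T⁻¹]) * (((coeff w x).coeff j) • T (m * j)) else 0 := by
      intro j
      have h3 : coeff p (geo w j - 1) = ∑ m ∈ Finset.Icc 1 p.degree,
          if m • w = p then (T (m * j) : ℤ[T;T⁻¹]) else 0 := by
        rw [map_sub, coeff_geo hw0 j p le_rfl, Finset.sum_range_eq_add_Ico _ (by omega), coeff_one]
        simp only [zero_smul, Nat.cast_zero, zero_mul, T_zero]
        have : Finset.Ico 1 (p.degree + 1) = Finset.Icc 1 p.degree := rfl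
        rw [this]
        by_cases hp0 : p = 0
        · subst hp0; simp
        · rw [if_neg hp0, if_neg (fun h => hp0 h.symm)]; simp
      have h4 : coeff p (((coeff w x).coeff j) •
        ((w.degree : MvPowerSeries (Fin n) ℤ[T;T⁻¹]) * (geo w j - 1))) =
        ((coeff w x).coeff j) • ((w.degree : ℤ[T;T⁻¹]) * coeff p (geo w j - 1)) := by
        rw [map_zsmul, ← nsmul_eq_mul, map_nsmul, nsmul_eq_mul]
      rw [h4, h3, Finset.mul_sum, Finset.smul_sum]
      apply Finset.sum_congr rfl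
      intro m _
      split_ifs
      · rw [mul_smul_comm]
      · simp
    rw [map_sum, Finset.sum_congr rfl (fun j _ => h2 j), Finset.sum_comm]
    apply Finset.sum_congr rfl
    intro m _
    split_ifs
    · rw [← Finset.mul_sum]
      rfl
    · simp
  rw [PE, map_sum, Finset.sum_congr rfl h1, Finset.sum_comm]
  change _ = ∑ m ∈ Finset.Icc 1 p.degree, ∑ w ∈ Finset.Iic p, _
  apply Finset.sum_congr rfl
  intro m hm
  rw [Finset.mem_Icc] at hm
  -- compare sums over `E` and over `Iic p`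
  have h5 : ∑ w ∈ Finset.Iic p, (if m • w = p then
      (w.degree : ℤ[T;T⁻¹]) * psi m (coeff w x) else 0) =
      ∑ w ∈ (Finset.Iic p).erase 0, (if m • w = p then
      (w.degree : ℤ[T;T⁻¹]) * psi m (coeff w x) else 0) := by
    symm
    apply Finset.sum_subset (Finset.erase_subset _ _)
    intro w hw hw'
    have : w = 0 := by
      by_contra hne
      exact hw' (Finset.mem_erase.2 ⟨hne, hw⟩)
    subst this
    simp
  rw [h5]
  symm
  apply Finset.sum_subset hp
  intro w hw hw'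
  rw [if_neg]
  intro h
  apply hw'
  refine Finset.mem_erase.2 ⟨fun h => h0 (h ▸ hw), Finset.mem_Iic.2 ?_⟩
  rw [← h]
  intro i
  rw [Finsupp.smul_apply, smul_eq_mul]
  exact Nat.le_mul_of_pos_left _ (by omega)

theorem Pser_zero (x : MvPowerSeries (Fin n) ℤ[T;T⁻¹]) : Pser x 0 = 0 := by
  simp [Pser]

theorem natCast_ne_zero {d : ℕ} (hd : 0 < d) : (d : ℤ[T;T⁻¹]) ≠ 0 := by
  intro h
  have := congrArg (fun f : ℤ[T;T⁻¹] => f.coeff 0) h
  have h2 : ((d : ℤ[T;T⁻¹])).coeff 0 = (d : ℤ) := by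
    have : (d : ℤ[T;T⁻¹]) = LaurentPolynomial.C (d : ℤ) := by simp
    rw [this, C_apply, if_pos rfl]
  simp only [h2] at this
  have h3 : (0 : ℤ[T;T⁻¹]).coeff 0 = 0 := rfl
  rw [h3] at this
  omega

/-- The recursion for a finite product. -/
theorem lamProd_rec (x : MvPowerSeries (Fin n) ℤ[T;T⁻¹]) (V v : Fin n →₀ ℕ) (hv : v ≤ V) :
    (v.degree : ℤ[T;T⁻¹]) * coeff v (lamProd x ((Finset.Iic V).erase 0)) =
      - ∑ p ∈ Finset.HasAntidiagonal.antidiagonal v,
        Pser x p.1 * coeff p.2 (lamProd x ((Finset.Iic V).erase 0)) := by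
  have h := congrArg (coeff v) (theta_lamProd x ((Finset.Iic V).erase 0) (by simp))
  rw [coeff_theta, map_neg, coeff_mul] at h
  rw [h]
  refine congrArg Neg.neg (Finset.sum_congr rfl ?_)
  rintro ⟨p, q⟩ hpq
  rw [Finset.HasAntidiagonal.mem_antidiagonal] at hpq
  simp only at hpq ⊢
  rw [coeff_PE x _ (by simp)]
  apply Finset.erase_subset_erase
  apply Finset.Iic_subset_Iic.2
  refine le_trans ?_ hv
  rw [← hpq]
  exact le_self_add

theorem coeff_zero_lamProd (x : MvPowerSeries (Fin n) ℤ[T;T⁻¹]) (E : Finset (Fin n →₀ ℕ))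
    (h0 : 0 ∉ E) : coeff 0 (lamProd x E) = 1 := by
  rw [lamProd, coeff_zero_eq_constantCoeff_apply, map_prod]
  apply Finset.prod_eq_one
  intro w hw
  rw [map_prod]
  apply Finset.prod_eq_one
  intro j _
  have hw0 : w ≠ 0 := fun h => h0 (h ▸ hw)
  have h1 : constantCoeff (1 - monomial w (T j) : MvPowerSeries (Fin n) ℤ[T;T⁻¹]) = 1 := by
    rw [map_sub, map_one, ← coeff_zero_eq_constantCoeff_apply, coeff_monomial_ne (Ne.symm hw0),
      sub_zero]
  have h2 : constantCoeff (geo w j : MvPowerSeries (Fin n) ℤ[T;T⁻¹]) = 1 := by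
    have := congrArg constantCoeff (geo_spec hw0 j)
    rwa [map_mul, h1, one_mul, map_one] at this
  have h3 : Ring.inverse (1 - monomial w (T j) : MvPowerSeries (Fin n) ℤ[T;T⁻¹]) = geo w j := by
    rw [← uf_val hw0, Ring.inverse_unit, uf_of_ne hw0]
    rfl
  rw [intPow, map_mul, map_pow, map_pow, h1, h3, h2, one_pow, one_pow, one_mul]

/-- Stability: the coefficient at `v` of the product over `Iic V` does not depend on `V ≥ v`. -/
theorem coeff_lamProd (x : MvPowerSeries (Fin n) ℤ[T;T⁻¹]) (V v : Fin n →₀ ℕ) (hv : v ≤ V) :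
    coeff v (lamProd x ((Finset.Iic V).erase 0)) = coeff v (lam x) := by
  have key : ∀ d : ℕ, ∀ v V : Fin n →₀ ℕ, v.degree = d → v ≤ V →
      coeff v (lamProd x ((Finset.Iic V).erase 0)) =
      coeff v (lamProd x ((Finset.Iic v).erase 0)) := by
    intro d
    induction d using Nat.strong_induction_on with
    | _ d IH =>
      intro v V hd hv
      by_cases hv0 : v = 0
      · subst hv0
        rw [coeff_zero_lamProd x _ (by simp), coeff_zero_lamProd x _ (by simp)]
      have hdeg : (v.degree : ℤ[T;T⁻¹]) ≠ 0 := natCast_ne_zero (degree_pos hv0)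
      apply mul_left_cancel₀ hdeg
      rw [lamProd_rec x V v hv, lamProd_rec x v v le_rfl]
      refine congrArg Neg.neg (Finset.sum_congr rfl ?_)
      rintro ⟨p, q⟩ hpq
      rw [Finset.HasAntidiagonal.mem_antidiagonal] at hpq
      simp only at hpq ⊢
      by_cases hp : p = 0
      · subst hp; rw [Pser_zero, zero_mul, zero_mul]
      have hq : q ≤ v := by rw [← hpq]; exact le_add_self
      have hqd : q.degree < d := by
        have := degree_pos hp
        rw [← hd, ← hpq, map_add]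
        omega
      rw [IH _ hqd q V rfl (hq.trans hv), IH _ hqd q v rfl hq]
  rw [key _ v V rfl hv]
  rfl

/-- The recursion for `lam x`. -/
theorem lam_rec (x : MvPowerSeries (Fin n) ℤ[T;T⁻¹]) (v : Fin n →₀ ℕ) :
    (v.degree : ℤ[T;T⁻¹]) * coeff v (lam x) =
      - ∑ p ∈ Finset.HasAntidiagonal.antidiagonal v, Pser x p.1 * coeff p.2 (lam x) := by
  rw [← coeff_lamProd x v v le_rfl, lamProd_rec x v v le_rfl]
  refine congrArg Neg.neg (Finset.sum_congr rfl ?_)
  rintro ⟨p, q⟩ hpq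
  rw [Finset.HasAntidiagonal.mem_antidiagonal] at hpq
  simp only at hpq ⊢
  rw [coeff_lamProd x v q]
  rw [← hpq]
  exact le_add_self

theorem coeff_zero_lam (x : MvPowerSeries (Fin n) ℤ[T;T⁻¹]) : coeff 0 (lam x) = 1 := by
  rw [← coeff_lamProd x 0 0 le_rfl, coeff_zero_lamProd x _ (by simp)]

end Pool.Agent.Work.MP_dbd475_al
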