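import Pool.Agent.Work.MP_dbd475_al.Lambda

/-!
# Existence and uniqueness of the pair `(a(V), b(V))`
-/

set_option autoImplicit false

open MvPowerSeries LaurentPolynomial

namespace Pool.Agent.Work.MP_dbd475_al

variable {n : ℕ}

theorem lam_local {x x' : MvPowerSeries (Fin n) ℤ[T;T⁻¹]} {v : Fin n →₀ ℕ}
    (h : ∀ w ≤ v, coeff w x = coeff w x') : coeff v (lam x) = coeff v (lam x') := by
  change coeff v (lamProd x ((Finset.Iic v).erase 0)) =
    coeff v (lamProd x' ((Finset.Iic v).erase 0))
  congr 1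
  apply Finset.prod_congr rfl
  intro w hw
  rw [h w (Finset.mem_Iic.1 (Finset.mem_of_mem_erase hw))]

theorem Pser_apply (x : MvPowerSeries (Fin n) ℤ[T;T⁻¹]) (v : Fin n →₀ ℕ) :
    Pser x v = ∑ m ∈ Finset.Icc 1 v.degree, ∑ w ∈ Finset.Iic v,
    if m • w = v then (w.degree : ℤ[T;T⁻¹]) * psi m (coeff w x) else 0 := rfl

theorem Pser_local {x x' : MvPowerSeries (Fin n) ℤ[T;T⁻¹]} {v : Fin n →₀ ℕ}
    (h : ∀ w ≤ v, coeff w x = coeff w x') : Pser x v = Pser x' v := by
  rw [Pser_apply, Pser_apply]
  apply Finset.sum_congr rfl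
  intro m _
  apply Finset.sum_congr rfl
  intro w hw
  rw [h w (Finset.mem_Iic.1 hw)]

theorem psi_one (r : ℤ[T;T⁻¹]) : psi 1 r = r := by
  unfold psi
  conv_rhs => rw [← AddMonoidAlgebra.sum_coeff_single r]
  apply Finsupp.sum_congr
  intro j _
  rw [Nat.cast_one, one_mul, T, AddMonoidAlgebra.smul_single, smul_eq_mul, mul_one]

theorem lam_diff {x x' : MvPowerSeries (Fin n) ℤ[T;T⁻¹]} {v : Fin n →₀ ℕ} (hv : v ≠ 0)
    (h : ∀ w < v, coeff w x = coeff w x') :
    coeff v (lam x) - coeff v (lam x') = - (coeff v x - coeff v x') := by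
  have hdeg : (v.degree : ℤ[T;T⁻¹]) ≠ 0 := natCast_ne_zero (degree_pos hv)
  apply mul_left_cancel₀ hdeg
  rw [mul_sub, lam_rec x v, lam_rec x' v]
  -- compare the sums
  have h1 : ∑ p ∈ Finset.HasAntidiagonal.antidiagonal v, Pser x p.1 * coeff p.2 (lam x) -
      ∑ p ∈ Finset.HasAntidiagonal.antidiagonal v, Pser x' p.1 * coeff p.2 (lam x') =
      Pser x v - Pser x' v := by
    rw [← Finset.sum_sub_distrib, Finset.sum_eq_single (v, 0)]
    · rw [coeff_zero_lam, coeff_zero_lam, mul_one, mul_one]
    · rintro ⟨p, q⟩ hpq hne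
      rw [Finset.HasAntidiagonal.mem_antidiagonal] at hpq
      simp only at hpq ⊢
      by_cases hp : p = 0
      · subst hp; rw [Pser_zero, Pser_zero, zero_mul, zero_mul, sub_zero]
      have hq : q ≠ 0 := by
        rintro rfl
        rw [add_zero] at hpq
        exact hne (by rw [hpq])
      have hpv : p < v := by
        rw [← hpq]
        exact lt_add_of_pos_right p (pos_iff_ne_zero.2 hq)
      have hqv : q < v := by
        rw [← hpq]
        exact lt_add_of_pos_left q (pos_iff_ne_zero.2 hp)
      rw [Pser_local (fun w hw => h w (lt_of_le_of_lt hw hpv)),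
        lam_local (fun w hw => h w (lt_of_le_of_lt hw hqv)), sub_self]
    · intro hnot
      exact absurd (Finset.HasAntidiagonal.mem_antidiagonal.2 (add_zero v)) hnot
  have h2 : Pser x v - Pser x' v = (v.degree : ℤ[T;T⁻¹]) * (coeff v x - coeff v x') := by
    have hd := degree_pos hv
    rw [Pser_apply, Pser_apply, ← Finset.sum_sub_distrib, Finset.sum_eq_single 1]
    · rw [← Finset.sum_sub_distrib, Finset.sum_eq_single v]
      · rw [one_smul, if_pos rfl, if_pos rfl, psi_one, psi_one, mul_sub]
      · intro w _ hw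
        rw [one_smul, if_neg hw, if_neg hw, sub_zero]
      · intro hnot
        exact absurd (Finset.mem_Iic.2 le_rfl) hnot
    · intro m hm hm1
      rw [Finset.mem_Icc] at hm
      rw [← Finset.sum_sub_distrib]
      apply Finset.sum_eq_zero
      intro w hw
      by_cases hmw : m • w = v
      · rw [if_pos hmw, if_pos hmw]
        have hwv : w < v := by
          refine lt_of_le_of_ne (Finset.mem_Iic.1 hw) ?_
          rintro rfl
          have := congrArg Finsupp.degree hmw
          rw [map_nsmul, smul_eq_mul] at this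
          have h3 : 2 ≤ m := by omega
          nlinarith
        rw [h w hwv, sub_self]
      · rw [if_neg hmw, if_neg hmw, sub_zero]
    · intro hnot
      exact absurd (Finset.mem_Icc.2 ⟨le_rfl, hd⟩) hnot
  linear_combination -h1 - h2

/-- The class `a [L(2)] + b [L(0)]`. -/
noncomputable def xab (a b : MvPowerSeries (Fin n) ℤ) : MvPowerSeries (Fin n) ℤ[T;T⁻¹] :=
  map (algebraMap ℤ ℤ[T;T⁻¹]) a * MvPowerSeries.C charL2 + map (algebraMap ℤ ℤ[T;T⁻¹]) b

theorem Phi_eq (a b : MvPowerSeries (Fin n) ℤ) : Phi a b = lam (xab a b) := rfl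

theorem coeff_xab (a b : MvPowerSeries (Fin n) ℤ) (v : Fin n →₀ ℕ) :
    coeff v (xab a b) = LaurentPolynomial.C (coeff v a) * charL2 +
      LaurentPolynomial.C (coeff v b) := by
  rw [xab, map_add, coeff_mul_C, coeff_map, coeff_map]
  rfl

/-- The multiplicity of `L(2 m)` in a Laurent polynomial. -/
def mu (m : ℕ) (r : ℤ[T;T⁻¹]) : ℤ := r.coeff (m : ℤ) - r.coeff ((m : ℤ) + 1)

theorem coeff_mult (m : ℕ) (f : MvPowerSeries (Fin n) ℤ[T;T⁻¹]) (v : Fin n →₀ ℕ) :
    coeff v (mult m f) = mu m (coeff v f) := rfl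

theorem mu_sub (m : ℕ) (r s : ℤ[T;T⁻¹]) : mu m (r - s) = mu m r - mu m s := by
  simp only [mu, AddMonoidAlgebra.coeff_sub, Finsupp.sub_apply]
  ring

theorem coeff_CT (a k j : ℤ) :
    (LaurentPolynomial.C a * T k : ℤ[T;T⁻¹]).coeff j = if k = j then a else 0 := by
  rw [← single_eq_C_mul_T]
  exact Finsupp.single_apply

theorem x_expand (a b : ℤ) :
    (LaurentPolynomial.C a * charL2 + LaurentPolynomial.C b : ℤ[T;T⁻¹]) =
      LaurentPolynomial.C a * T 1 + LaurentPolynomial.C a * T 0 + LaurentPolynomial.C a * T (-1)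
        + LaurentPolynomial.C b * T 0 := by
  rw [charL2, T_zero]
  ring

theorem mu_zero_x (a b : ℤ) :
    mu 0 (LaurentPolynomial.C a * charL2 + LaurentPolynomial.C b) = b := by
  rw [x_expand, mu]
  simp only [AddMonoidAlgebra.coeff_add, Finsupp.add_apply, coeff_CT]
  norm_num

theorem mu_one_x (a b : ℤ) :
    mu 1 (LaurentPolynomial.C a * charL2 + LaurentPolynomial.C b) = a := by
  rw [x_expand, mu]
  simp only [AddMonoidAlgebra.coeff_add, Finsupp.add_apply, coeff_CT]
  norm_num

theorem mu_zero_one : mu 0 (1 : ℤ[T;T⁻¹]) = 1 := by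
  have := mu_zero_x 0 1
  simpa using this

theorem mu_one_one : mu 1 (1 : ℤ[T;T⁻¹]) = 0 := by
  have := mu_one_x 0 1
  simpa using this

/-- The recursive construction of the pair. -/
noncomputable def pairAt : (Fin n →₀ ℕ) → ℤ × ℤ :=
  WellFounded.fix (wellFounded_lt : WellFounded ((· < ·) : (Fin n →₀ ℕ) → (Fin n →₀ ℕ) → Prop))
    (fun v rec => by
      classical
      exact
      if v = 0 then (0, 0) else
        let x : MvPowerSeries (Fin n) ℤ[T;T⁻¹] := fun w =>
          if h : w < v then LaurentPolynomial.C (rec w h).1 * charL2 +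
            LaurentPolynomial.C (rec w h).2 else 0
        (mu 1 (coeff v (lam x)) + coeff v (∑ i : Fin n, X i : MvPowerSeries (Fin n) ℤ),
          mu 0 (coeff v (lam x))))

/-- The truncation of the class. -/
noncomputable def xlt (v : Fin n →₀ ℕ) : MvPowerSeries (Fin n) ℤ[T;T⁻¹] := by
  classical
  exact fun w => if w < v then LaurentPolynomial.C (pairAt w).1 * charL2 +
            LaurentPolynomial.C (pairAt w).2 else 0

theorem pairAt_eq (v : Fin n →₀ ℕ) (hv : v ≠ 0) : pairAt v =
    (mu 1 (coeff v (lam (xlt v))) + coeff v (∑ i : Fin n, X i : MvPowerSeries (Fin n) ℤ),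
          mu 0 (coeff v (lam (xlt v)))) := by
  conv_lhs => rw [pairAt, WellFounded.fix_eq, if_neg hv]
  rfl

theorem pairAt_zero : pairAt (0 : Fin n →₀ ℕ) = (0, 0) := by
  rw [pairAt, WellFounded.fix_eq, if_pos rfl]

/-- The series `a(V)`. -/
noncomputable def aV : MvPowerSeries (Fin n) ℤ := fun v => (pairAt v).1

/-- The series `b(V)`. -/
noncomputable def bV : MvPowerSeries (Fin n) ℤ := fun v => (pairAt v).2

theorem coeff_aV (v : Fin n →₀ ℕ) : coeff v (aV : MvPowerSeries (Fin n) ℤ) = (pairAt v).1 := rfl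

theorem coeff_bV (v : Fin n →₀ ℕ) : coeff v (bV : MvPowerSeries (Fin n) ℤ) = (pairAt v).2 := rfl

theorem coeff_xlt (v w : Fin n →₀ ℕ) (h : w < v) :
    coeff w (xlt v) = coeff w (xab (aV : MvPowerSeries (Fin n) ℤ) bV) := by
  rw [coeff_xab, coeff_aV, coeff_bV]
  change (if w < v then _ else 0) = _
  rw [if_pos h]

theorem coeff_xlt_self (v : Fin n →₀ ℕ) : coeff v (xlt v) = 0 := by
  change (if v < v then _ else 0) = _
  rw [if_neg (lt_irrefl _)]

theorem isKMPair_V : IsKMPair (aV : MvPowerSeries (Fin n) ℤ) bV := by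
  have key : ∀ v : Fin n →₀ ℕ, v ≠ 0 →
      coeff v (Phi (aV : MvPowerSeries (Fin n) ℤ) bV) = coeff v (lam (xlt v)) -
        (LaurentPolynomial.C (pairAt v).1 * charL2 + LaurentPolynomial.C (pairAt v).2) := by
    intro v hv
    have h := lam_diff (x := xab (aV : MvPowerSeries (Fin n) ℤ) bV) (x' := xlt v) hv
      (fun w hw => (coeff_xlt v w hw).symm)
    rw [coeff_xlt_self, sub_zero, coeff_xab, coeff_aV, coeff_bV] at h
    rw [Phi_eq]
    linear_combination h
  refine ⟨?_, ?_, ?_, ?_⟩
  · rw [← coeff_zero_eq_constantCoeff_apply, coeff_aV, pairAt_zero]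
  · rw [← coeff_zero_eq_constantCoeff_apply, coeff_bV, pairAt_zero]
  · ext v
    rw [coeff_mult, coeff_one]
    by_cases hv : v = 0
    · subst hv
      rw [Phi_eq, coeff_zero_lam, if_pos rfl, mu_zero_one]
    · rw [key v hv, mu_sub, mu_zero_x, if_neg hv, pairAt_eq v hv, sub_self]
  · ext v
    rw [coeff_mult, map_neg]
    by_cases hv : v = 0
    · subst hv
      rw [Phi_eq, coeff_zero_lam, mu_one_one, map_sum]
      simp
    · rw [key v hv, mu_sub, mu_one_x, pairAt_eq v hv]
      ring

theorem km_unique {a b a' b' : MvPowerSeries (Fin n) ℤ} (h : IsKMPair a b)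
    (h' : IsKMPair a' b') : a = a' ∧ b = b' := by
  have key : ∀ d : ℕ, ∀ v : Fin n →₀ ℕ, v.degree = d →
      coeff v a = coeff v a' ∧ coeff v b = coeff v b' := by
    intro d
    induction d using Nat.strong_induction_on with
    | _ d IH =>
      intro v hd
      by_cases hv : v = 0
      · subst hv
        rw [coeff_zero_eq_constantCoeff_apply, coeff_zero_eq_constantCoeff_apply,
          coeff_zero_eq_constantCoeff_apply, coeff_zero_eq_constantCoeff_apply,
          h.constantCoeff_a, h'.constantCoeff_a, h.constantCoeff_b, h'.constantCoeff_b]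
        exact ⟨rfl, rfl⟩
      · have h1 := lam_diff (x := xab a b) (x' := xab a' b') hv (by
          intro w hw
          have hwd : w.degree < d := by
            obtain ⟨u, rfl⟩ := exists_add_of_le hw.le
            have hu : u ≠ 0 := by
              rintro rfl
              simp at hw
            have := degree_pos hu
            rw [← hd, map_add]
            omega
          obtain ⟨e1, e2⟩ := IH _ hwd w rfl
          rw [coeff_xab, coeff_xab, e1, e2])
        rw [← Phi_eq, ← Phi_eq, coeff_xab, coeff_xab] at h1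
        have m0 := congrArg (coeff v) h.mult_zero
        have m0' := congrArg (coeff v) h'.mult_zero
        have m1 := congrArg (coeff v) h.mult_one
        have m1' := congrArg (coeff v) h'.mult_one
        rw [coeff_mult] at m0 m0' m1 m1'
        have h2 : (coeff v (Phi a b) - coeff v (Phi a' b')) =
            (LaurentPolynomial.C (coeff v a') * charL2 + LaurentPolynomial.C (coeff v b')) -
            (LaurentPolynomial.C (coeff v a) * charL2 + LaurentPolynomial.C (coeff v b)) := by
          rw [h1]; ring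
        have e0 := congrArg (mu 0) h2
        have e1 := congrArg (mu 1) h2
        rw [mu_sub, mu_sub, m0, m0', mu_zero_x, mu_zero_x, sub_self] at e0
        rw [mu_sub, mu_sub, m1, m1', mu_one_x, mu_one_x, sub_self] at e1
        constructor <;> linarith
  constructor
  · ext v; exact (key _ v rfl).1
  · ext v; exact (key _ v rfl).2

end Pool.Agent.Work.MP_dbd475_al
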